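import Mathlib

set_option autoImplicit false

/-!
# Soluble point-transitive projective planes: definitions (MP_5bfab0)
-/

namespace Pool.Agent.H12.ST

open Finset

/-- `B Bᵀ = n I + f J` and `Bᵀ B = n I + f J`, with `n > 0`, `f ≥ 0`. -/
structure Sys {R C : Type} [Fintype R] [Fintype C] [DecidableEq R] [DecidableEq C]
    (B : R → C → ℤ) (n f : ℤ) : Prop where
  npos : 0 < n
  fnn : 0 ≤ f
  rows : ∀ r r', ∑ c, B r c * B r' c = (if r = r' then n else 0) + f
  cols : ∀ c c', ∑ r, B r c * B r c' = (if c = c' then n else 0) + f

/-- The arithmetic condition (Mann's test): every prime occurring to an odd power in `n` has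
odd order modulo every prime occurring to an odd power in `n² + n + 1`. -/
def MannGood (n : ℕ) : Prop :=
  ∀ p q : ℕ, p.Prime → q.Prime → Odd (padicValNat p n) → Odd (padicValNat q (n ^ 2 + n + 1)) →
    Odd (orderOf (p : ZMod q))

end Pool.Agent.H12.ST
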