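import Pool.Agent.H12.ST.Ind

set_option autoImplicit false

/-!
Projective planes: incidence system, transitivity on lines, Mann's test.
-/

namespace Pool.Agent.H12.ST

open Finset MulAction Configuration

/-- The plane has a soluble group of collineations which is transitive on the points. -/
def SolTrans (P L : Type) [Membership P L] : Prop :=
  ∃ (G : Type) (_ : Group G) (_ : MulAction G P) (_ : MulAction G L),
    Group.IsSolvable G ∧ (∀ (g : G) (p : P) (l : L), g • p ∈ g • l ↔ p ∈ l) ∧
    MulAction.IsPretransitive G P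

section

variable {P L : Type} [Membership P L]

open Classical in
/-- incidence matrix -/
noncomputable def inc (P L : Type) [Membership P L] (p : P) (l : L) : ℤ := if p ∈ l then 1 else 0

open Classical in
theorem inc_sys (P L : Type) [Membership P L] [Fintype P] [Fintype L] [ProjectivePlane P L] :
    Sys (inc P L) (ProjectivePlane.order P L) 1 where
  npos := by
    have := ProjectivePlane.one_lt_order P L
    omega
  fnn := zero_le_one
  rows := by
    intro p p'
    have h1 : ∑ l : L, inc P L p l * inc P L p' l =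
        ((univ.filter fun l : L => p ∈ l ∧ p' ∈ l).card : ℤ) := by
      rw [card_eq_sum_ones, sum_filter]
      push_cast
      refine sum_congr rfl fun l _ => ?_
      unfold inc
      split_ifs <;> simp_all
    rw [h1]
    split_ifs with h
    · subst h
      have h2 := ProjectivePlane.lineCount_eq (L := L) p
      unfold lineCount at h2
      rw [Nat.card_eq_fintype_card, Fintype.card_subtype] at h2
      have h3 : (univ.filter fun l : L => p ∈ l ∧ p ∈ l) = univ.filter fun l : L => p ∈ l := by
        ext l; simp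
      rw [h3, h2]; push_cast; rfl
    · obtain ⟨l, hl, hu⟩ := HasLines.existsUnique_line P L p p' h
      have h3 : (univ.filter fun l : L => p ∈ l ∧ p' ∈ l) = {l} := by
        ext m
        simp only [mem_filter, mem_univ, true_and, mem_singleton]
        exact ⟨fun hm => hu m hm, fun hm => hm ▸ hl⟩
      rw [h3]; simp
  cols := by
    intro l l'
    have h1 : ∑ p : P, inc P L p l * inc P L p l' =
        ((univ.filter fun p : P => p ∈ l ∧ p ∈ l').card : ℤ) := by
      rw [card_eq_sum_ones, sum_filter]
      push_cast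
      refine sum_congr rfl fun p _ => ?_
      unfold inc
      split_ifs <;> simp_all
    rw [h1]
    split_ifs with h
    · subst h
      have h2 := ProjectivePlane.pointCount_eq (P := P) l
      unfold pointCount at h2
      rw [Nat.card_eq_fintype_card, Fintype.card_subtype] at h2
      have h3 : (univ.filter fun p : P => p ∈ l ∧ p ∈ l) = univ.filter fun p : P => p ∈ l := by
        ext l; simp
      rw [h3, h2]; push_cast; rfl
    · obtain ⟨p, hp, hu⟩ := HasPoints.existsUnique_point P L l l' h
      have h3 : (univ.filter fun p : P => p ∈ l ∧ p ∈ l') = {p} := by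
        ext m
        simp only [mem_filter, mem_univ, true_and, mem_singleton]
        exact ⟨fun hm => hu m hm, fun hm => hm ▸ hp⟩
      rw [h3]; simp

lemma inc_inv {G : Type} [Group G] [MulAction G P] [MulAction G L]
    (hmem : ∀ (g : G) (p : P) (l : L), g • p ∈ g • l ↔ p ∈ l) (g : G) (p : P) (l : L) :
    inc P L (g • p) (g • l) = inc P L p l := by
  unfold inc
  by_cases h : p ∈ l
  · rw [if_pos h, if_pos ((hmem g p l).2 h)]
  · rw [if_neg h, if_neg (fun h2 => h ((hmem g p l).1 h2))]

/-- Lines are determined by their points. -/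
lemma line_ext [Finite P] [Finite L] [ProjectivePlane P L] {l m : L}
    (h : ∀ p : P, p ∈ l ↔ p ∈ m) : l = m := by
  classical
  have := Fintype.ofFinite P
  have := Fintype.ofFinite L
  refine (inc_sys P L).swap.row_inj fun p => ?_
  unfold inc
  by_cases h1 : p ∈ l
  · rw [if_pos h1, if_pos ((h p).1 h1)]
  · rw [if_neg h1, if_neg (fun h2 => h1 ((h p).2 h2))]

/-- Points are determined by their lines. -/
lemma point_ext [Finite P] [Finite L] [ProjectivePlane P L] {p p' : P}
    (h : ∀ l : L, p ∈ l ↔ p' ∈ l) : p = p' := by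
  classical
  have := Fintype.ofFinite P
  have := Fintype.ofFinite L
  refine (inc_sys P L).row_inj fun l => ?_
  unfold inc
  by_cases h1 : p ∈ l
  · rw [if_pos h1, if_pos ((h l).1 h1)]
  · rw [if_neg h1, if_neg (fun h2 => h1 ((h l).2 h2))]

/-- The finite image of a group of collineations. -/
theorem reduce [Finite P] [Finite L] [ProjectivePlane P L] (G : Type) [Group G] [MulAction G P]
    [MulAction G L] (hmem : ∀ (g : G) (p : P) (l : L), g • p ∈ g • l ↔ p ∈ l) :
    ∃ (G' : Type) (_ : Group G') (_ : Finite G') (_ : MulAction G' P) (_ : MulAction G' L)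
      (φ : G →* G'), Function.Surjective φ ∧ FaithfulSMul G' P ∧
      (∀ (g : G) (p : P), φ g • p = g • p) ∧ (∀ (g : G) (l : L), φ g • l = g • l) ∧
      (∀ (g : G') (p : P) (l : L), g • p ∈ g • l ↔ p ∈ l) := by
  classical
  let Φ : G →* Equiv.Perm P × Equiv.Perm L :=
    (MulAction.toPermHom G P).prod (MulAction.toPermHom G L)
  let G' := Φ.range
  let a1 : MulAction G' P :=
    MulAction.compHom P ((MonoidHom.fst (Equiv.Perm P) (Equiv.Perm L)).comp G'.subtype)
  let a2 : MulAction G' L :=
    MulAction.compHom L ((MonoidHom.snd (Equiv.Perm P) (Equiv.Perm L)).comp G'.subtype)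
  have hsur : Function.Surjective Φ.rangeRestrict := Φ.rangeRestrict_surjective
  have hmem' : ∀ (g : G') (p : P) (l : L), g • p ∈ g • l ↔ p ∈ l := by
    intro g p l
    obtain ⟨g, rfl⟩ := hsur g
    exact hmem g p l
  refine ⟨G', inferInstance, inferInstance, a1, a2, Φ.rangeRestrict, hsur, ⟨?_⟩,
    fun g p => rfl, fun g l => rfl, hmem'⟩
  intro a b hab
  have hL : ∀ l : L, a • l = b • l := by
    intro l
    refine line_ext fun p => ?_
    have h1 : p ∈ a • l ↔ a⁻¹ • p ∈ l := by
      rw [← hmem' a (a⁻¹ • p) l, smul_inv_smul]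
    have h2 : p ∈ b • l ↔ b⁻¹ • p ∈ l := by
      rw [← hmem' b (b⁻¹ • p) l, smul_inv_smul]
    have h3 : a⁻¹ • p = b⁻¹ • p := by
      rw [inv_smul_eq_iff, hab (b⁻¹ • p), smul_inv_smul]
    rw [h1, h2, h3]
  apply Subtype.ext
  refine Prod.ext ?_ ?_
  · ext x; exact hab x
  · ext x; exact hL x

/-- A group transitive on points is transitive on lines. -/
theorem trans_lines [Finite P] [Finite L] [ProjectivePlane P L] (G : Type) [Group G]
    [MulAction G P] [MulAction G L] (hmem : ∀ (g : G) (p : P) (l : L), g • p ∈ g • l ↔ p ∈ l)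
    [MulAction.IsPretransitive G P] : MulAction.IsPretransitive G L := by
  classical
  have := Fintype.ofFinite P
  have := Fintype.ofFinite L
  obtain ⟨G', _, _, _, _, φ, hsur, _, hP, hL, hmem'⟩ := reduce G hmem
  have ht : MulAction.IsPretransitive G' P := ⟨fun x y => by
    obtain ⟨g, hg⟩ := MulAction.exists_smul_eq G x y
    exact ⟨φ g, by rw [hP, hg]⟩⟩
  have h1 := (inc_sys P L).orbits_eq (V := G') (fun g p l => inc_inv hmem' g p l)
  have h2 : Nat.card (orbitRel.Quotient G' P) ≤ 1 := by
    rw [Finite.card_le_one_iff_subsingleton]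
    exact (MulAction.pretransitive_iff_subsingleton_quotient G' P).1 ht
  rw [h1, Finite.card_le_one_iff_subsingleton] at h2
  have h3 := (MulAction.pretransitive_iff_subsingleton_quotient G' L).2 h2
  refine ⟨fun x y => ?_⟩
  obtain ⟨g', hg'⟩ := MulAction.exists_smul_eq G' x y
  obtain ⟨g, rfl⟩ := hsur g'
  exact ⟨g, by rw [← hL, hg']⟩

lemma sq_eq_one_iff_zmod {q : ℕ} [Fact q.Prime] {x : ZMod q} (h : x ^ 2 = 1) :
    x = 1 ∨ x = -1 := by
  have : (x - 1) * (x + 1) = 0 := by linear_combination h
  rcases mul_eq_zero.1 this with h | h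
  · left; linear_combination h
  · right; linear_combination h

/-- Mann's test for planes with a soluble point-transitive group. -/
theorem mannGood_of_solTrans [Finite P] [Finite L] [ProjectivePlane P L] (h : SolTrans P L) :
    MannGood (ProjectivePlane.order P L) := by
  classical
  have := Fintype.ofFinite P
  have := Fintype.ofFinite L
  obtain ⟨G, _, _, _, hsol, hmem, ht⟩ := h
  have ht2 := trans_lines (P := P) (L := L) G hmem
  set n := ProjectivePlane.order P L with hn
  intro p q hp hq hpn hqn
  have : Fact q.Prime := ⟨hq⟩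
  have : Fact p.Prime := ⟨hp⟩
  have hodd : Odd (n ^ 2 + n + 1) := by
    have : Even (n ^ 2 + n) := by
      have : n ^ 2 + n = n * (n + 1) := by ring
      rw [this]; exact Nat.even_mul_succ_self n
    exact this.add_one
  have hqd : q ∣ n ^ 2 + n + 1 := by
    by_contra hcon
    rw [padicValNat.eq_zero_of_not_dvd hcon] at hqn
    exact absurd hqn (by decide)
  have hpd : p ∣ n := by
    by_contra hcon
    rw [padicValNat.eq_zero_of_not_dvd hcon] at hpn
    exact absurd hpn (by decide)
  have hq2 : 2 < q := by
    rcases hq.eq_two_or_odd' with rfl | h2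
    · exact absurd (hodd) (Nat.not_odd_iff_even.2 (even_iff_two_dvd.2 hqd))
    · have := hq.two_le
      have : q ≠ 2 := by rintro rfl; exact absurd h2 (by decide)
      omega
  by_contra hcon
  rw [Nat.not_odd_iff_even] at hcon
  have hp0 : (p : ZMod q) ≠ 0 := by
    rw [Ne, ZMod.natCast_eq_zero_iff]
    intro h1
    have h2 : q ∣ n := h1.trans hpd
    have h3 : q ∣ 1 := by
      have h4 : q ∣ n ^ 2 + n := by
        have : n ^ 2 + n = n * (n + 1) := by ring
        rw [this]; exact Dvd.dvd.mul_right h2 _
      exact (Nat.dvd_add_right h4).1 hqd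
    exact hq.one_lt.ne' (Nat.dvd_one.1 h3)
  have hpos : 0 < orderOf (p : ZMod q) := by
    have h1 : (p : ZMod q) ^ (q - 1) = 1 := ZMod.pow_card_sub_one_eq_one hp0
    rw [orderOf_pos_iff]
    exact isOfFinOrder_iff_pow_eq_one.2 ⟨q - 1, by omega, h1⟩
  obtain ⟨k, hk⟩ := hcon
  have hk0 : 0 < k := by omega
  have h1 : ((p : ZMod q) ^ k) ^ 2 = 1 := by
    rw [← pow_mul, mul_two, ← hk]; exact pow_orderOf_eq_one _
  have h2 : (p : ZMod q) ^ k ≠ 1 := by
    intro h3
    have := Nat.le_of_dvd hk0 (orderOf_dvd_of_pow_eq_one h3)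
    omega
  have h3 : (p : ZMod q) ^ k = -1 := by
    rcases sq_eq_one_iff_zmod h1 with h | h
    · exact absurd h h2
    · exact h
  have hj : q ∣ p ^ k + 1 := by
    rw [← ZMod.natCast_eq_zero_iff]
    push_cast
    rw [h3]; ring
  have h4 := indStat hp hq hq2 hj (n ^ 2 + n + 1) P L G (inc P L) _ _ (inc_sys P L)
    (fun g p l => inc_inv hmem g p l) (by simpa using hpn)
    (by rw [ProjectivePlane.card_points P L]) hodd
  exact absurd hqn (Nat.not_odd_iff_even.2 h4)

end

end Pool.Agent.H12.ST
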