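import Mathlib

set_option autoImplicit false

/-!
Divergence of the sum of the reciprocals of the primes in a reduced residue class.

PAPER PROOF. Mathlib has `ArithmeticFunction.vonMangoldt.LSeries_residueClass_lower_bound`:
there is `C` with `φ(m)⁻¹/(s-1) - C ≤ Σ_n Λ_a(n)/n^s` for `1 < s ≤ 2`, where `Λ_a(n) = Λ(n)` if
`n ≡ a (mod m)` and `0` otherwise. Multiply by `s - 1`: the terms `(s-1) Λ_a(n)/n^s` are bounded
by `Λ_a(n)/n` at non-primes (summable, `summable_residueClass_non_primes_div`) and by `1/n` at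
the primes `n ≡ a`, as `log n ≤ n^(s-1)/(s-1)`. If the sum of the reciprocals of the primes
`≡ a` converges, dominated convergence gives `(s-1) Σ_n Λ_a(n)/n^s → 0` for `s → 1+`, but the
lower bound tends to `φ(m)⁻¹ > 0`.
-/

namespace Pool.Agent.H12.ST

open Filter Topology

open ArithmeticFunction ArithmeticFunction.vonMangoldt in
theorem not_summable_inv_prime_AP {m : ℕ} [NeZero m] {a : ZMod m} (ha : IsUnit a) :
    ¬ Summable (fun n : ℕ => if n.Prime ∧ (n : ZMod m) = a then (1 : ℝ) / n else 0) := by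
  intro H
  obtain ⟨C, hC⟩ := LSeries_residueClass_lower_bound (q := m) (a := a) ha
  have hq : 0 < (m.totient : ℝ)⁻¹ := inv_pos.mpr (mod_cast m.totient.pos_of_neZero)
  have hNP := summable_residueClass_non_primes_div a
  have hb := hNP.add H
  have hlim : ∀ n : ℕ, Tendsto (fun x : ℝ => (x - 1) * (residueClass a n / (n : ℝ) ^ x))
      (𝓝[>] 1) (𝓝 0) := by
    intro n
    rcases Nat.eq_zero_or_pos n with rfl | hn
    · simp
    · have hn' : (0 : ℝ) < n := by exact_mod_cast hn
      have hc : ContinuousAt (fun x : ℝ => (x - 1) * (residueClass a n / (n : ℝ) ^ x)) 1 := by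
        refine ContinuousAt.mul (by fun_prop) ?_
        refine ContinuousAt.div continuousAt_const ?_ (Real.rpow_pos_of_pos hn' _).ne'
        exact (Real.continuous_const_rpow hn'.ne').continuousAt
      have h1 := hc.tendsto
      simp only [sub_self, zero_mul] at h1
      exact h1.mono_left nhdsWithin_le_nhds
  have hbd : ∀ᶠ x : ℝ in 𝓝[>] 1, ∀ n : ℕ,
      ‖(x - 1) * (residueClass a n / (n : ℝ) ^ x)‖ ≤
        (if n.Prime then 0 else residueClass a n) / n +
          (if n.Prime ∧ (n : ZMod m) = a then (1 : ℝ) / n else 0) := by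
    have hmem : Set.Ioc (1 : ℝ) 2 ∈ 𝓝[>] (1 : ℝ) := Ioc_mem_nhdsGT (by norm_num)
    filter_upwards [hmem] with x hx n
    obtain ⟨hx1, hx2⟩ := hx
    have hxp : 0 < x - 1 := by linarith
    have hnn : 0 ≤ residueClass a n := residueClass_nonneg a n
    rcases Nat.eq_zero_or_pos n with rfl | hn
    · simp
    have hn' : (0 : ℝ) < n := by exact_mod_cast hn
    have hn1 : (1 : ℝ) ≤ n := by exact_mod_cast hn
    have hpw : (0 : ℝ) < (n : ℝ) ^ x := Real.rpow_pos_of_pos hn' _
    rw [Real.norm_of_nonneg (by positivity)]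
    by_cases hp : n.Prime
    · by_cases hna : (n : ZMod m) = a
      · have hv : residueClass a n = Real.log n := by
          rw [residueClass, Set.indicator_of_mem (by simpa using hna), vonMangoldt_apply_prime hp]
        rw [if_pos hp, if_pos ⟨hp, hna⟩, hv, zero_div, zero_add]
        have hlog := Real.log_le_rpow_div hn'.le hxp
        have hsplit : (n : ℝ) ^ x = (n : ℝ) ^ (x - 1) * n := by
          rw [← Real.rpow_add_one hn'.ne']; congr 1; ring
        rw [hsplit]
        have hpw' : (0 : ℝ) < (n : ℝ) ^ (x - 1) := Real.rpow_pos_of_pos hn' _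
        rw [← mul_div_assoc, div_le_div_iff₀ (by positivity) hn']
        have h2 : (x - 1) * Real.log n ≤ (n : ℝ) ^ (x - 1) := by
          rw [le_div_iff₀ hxp] at hlog
          linarith
        nlinarith
      · have hv : residueClass a n = 0 := by
          rw [residueClass, Set.indicator_of_notMem (by simpa using hna)]
        rw [hv, zero_div, mul_zero, if_pos hp, zero_div, zero_add]
        split_ifs
        · positivity
        · exact le_rfl
    · rw [if_neg hp, if_neg (fun h => hp h.1), add_zero]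
      have h1 : (n : ℝ) ≤ (n : ℝ) ^ x := by
        calc (n : ℝ) = (n : ℝ) ^ (1 : ℝ) := (Real.rpow_one _).symm
          _ ≤ _ := Real.rpow_le_rpow_of_exponent_le hn1 hx1.le
      calc (x - 1) * (residueClass a n / (n : ℝ) ^ x)
          ≤ 1 * (residueClass a n / (n : ℝ) ^ x) := by
            apply mul_le_mul_of_nonneg_right (by linarith) (by positivity)
        _ = residueClass a n / (n : ℝ) ^ x := one_mul _
        _ ≤ residueClass a n / n := div_le_div_of_nonneg_left hnn hn' h1
  have hT := tendsto_tsum_of_dominated_convergence hb hlim hbd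
  rw [tsum_zero] at hT
  have hlow : Tendsto (fun x : ℝ => (m.totient : ℝ)⁻¹ - C * (x - 1)) (𝓝[>] 1)
      (𝓝 ((m.totient : ℝ)⁻¹)) := by
    have hc : ContinuousAt (fun x : ℝ => (m.totient : ℝ)⁻¹ - C * (x - 1)) 1 := by fun_prop
    have h1 := hc.tendsto
    simp only [sub_self, mul_zero, sub_zero] at h1
    exact h1.mono_left nhdsWithin_le_nhds
  have hle : ∀ᶠ x : ℝ in 𝓝[>] 1, (m.totient : ℝ)⁻¹ - C * (x - 1) ≤
      ∑' n : ℕ, (x - 1) * (residueClass a n / (n : ℝ) ^ x) := by
    have hmem : Set.Ioc (1 : ℝ) 2 ∈ 𝓝[>] (1 : ℝ) := Ioc_mem_nhdsGT (by norm_num)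
    filter_upwards [hmem] with x hx
    have hxp : 0 < x - 1 := by linarith [hx.1]
    rw [tsum_mul_left]
    have h := mul_le_mul_of_nonneg_left (hC hx) hxp.le
    calc (m.totient : ℝ)⁻¹ - C * (x - 1)
        = (x - 1) * ((m.totient : ℝ)⁻¹ / (x - 1) - C) := by field_simp
      _ ≤ _ := h
  have := le_of_tendsto_of_tendsto hlow hT hle
  linarith

end Pool.Agent.H12.ST
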