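import Pool.Agent.H12.ST.Defs
import Pool.Agent.H12.ST.AP

set_option autoImplicit false

/-!
The set of `n` which satisfy Mann's test has density zero.

PAPER PROOF. Only the following consequence of `MannGood n` is used: for primes `p`, `q` with
`v_p(n) = 1` and `v_q(n²+n+1) = 1` the order of `p` modulo `q` is odd, hence `p` is a square modulo
`q` (`p = p^(o+1) = (p^((o+1)/2))^2`), so `legendreSym q p ≠ -1`.

(a) SIEVE. Let `Q` be a finite set of primes and for `q ∈ Q` let `Ω q` be a set of residues modulo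
`q²`. Then `#{n ≤ x : ∀ q ∈ Q, (n : ZMod (q^2)) ∉ Ω q} ≤ (x/M + 1) · ∏_{q ∈ Q} (q² - |Ω q|)`
with `M = ∏ q²` (Chinese remainder theorem: the condition depends on `n mod M`, and among `M`
consecutive integers exactly `∏ (q² - |Ω q|)` are good). So the upper density is at most
`∏_{q∈Q} (1 - |Ω q|/q²) ≤ exp(-∑ |Ω q|/q²)`.
(b) For an infinite set `𝒬` of primes with `Σ_{q ∈ 𝒬} 1/q = ∞` and `|Ω q| ≥ q/2`, the product over
a large finite subset is as small as we like.
(c) `A(P) = {n : v_p(n) ≠ 1 for all primes p ≤ P}`: here `Ω p` = residues `p k mod p²` with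
`p ∤ k`, `|Ω p| = p - 1 ≥ p/2`; `Σ 1/p = ∞` is Mathlib's `Nat.Primes.not_summable_one_div`
(or `not_summable_one_div_on_primes`). So the upper density of `A(P)` tends to `0`.
(d) For a fixed prime `p` there is a modulus `m` (`m = 24` if `p = 2`, `m = 12` if `p = 3`,
`m = 12 p` if `p ≥ 5`) and a unit `a mod m` such that every prime `q ≡ a (mod m)` satisfies
`q ≡ 1 (mod 3)` and `legendreSym q p = -1`: `a = 13` for `p = 2` (13 ≡ 5 mod 8), `a = 7` for
`p = 3` (quadratic reciprocity), and for `p ≥ 5`, `a ≡ 1 mod 12` and `a ≡ b mod p` with `b` a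
non-residue mod `p` (reciprocity with `q ≡ 1 mod 4`: `(p/q) = (q/p) = -1`).
For such `q`: there is `w` with `w² + w + 1 ≡ 0 mod q` (an element of order 3, `q ≡ 1 mod 3`),
and `Ω q` = the residues `w + q k mod q²` with `q² ∤ (w+qk)²+(w+qk)+1`: since
`(w+qk)²+(w+qk)+1 ≡ (w²+w+1) + qk(2w+1) mod q²` and `q ∤ 2w+1` (`(2w+1)² ≡ -3`), exactly one `k`
mod `q` is bad, so `|Ω q| ≥ q - 1 ≥ q/2`, and `n mod q² ∈ Ω q` implies `v_q(n²+n+1) = 1`.
By (b) and `not_summable_inv_prime_AP` the set `A_p = {n : v_q(n²+n+1) ≠ 1 ∀ q ∈ 𝒬_p, q ≤ Q}` has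
upper density `→ 0` as `Q → ∞`.
(e) `{MannGood} ⊆ A(P) ∪ ⋃_{p ≤ P} A_p`: if `n ∉ A(P)` pick `p ≤ P` with `v_p(n) = 1`; if
`n ∉ A_p` pick `q ∈ 𝒬_p` with `v_q(n²+n+1) = 1`; contradiction with `MannGood n`.
-/

namespace Pool.Agent.H12.ST

open Filter Topology

open Finset

/-! ### counting -/

private theorem Dens_crt {a b : ℕ} (hab : a.Coprime b) (A B : ℕ → Prop) [DecidablePred A] [DecidablePred B]
    (hA : ∀ n, A (n % a) ↔ A n) (hB : ∀ n, B (n % b) ↔ B n) :
    ((range (a * b)).filter fun n => A n ∧ B n).card ≤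
      ((range a).filter A).card * ((range b).filter B).card := by
  rcases Nat.eq_zero_or_pos a with rfl | ha
  · simp
  rcases Nat.eq_zero_or_pos b with rfl | hb
  · simp
  rw [← card_product]
  refine card_le_card_of_injOn (fun n => (n % a, n % b)) ?_ ?_
  · intro n hn
    simp only [coe_filter, mem_range, Set.mem_ofPred_eq] at hn
    simp only [coe_product, coe_filter, Set.mem_prod, mem_range, Set.mem_ofPred_eq]
    exact ⟨⟨Nat.mod_lt _ ha, (hA n).2 hn.2.1⟩, Nat.mod_lt _ hb, (hB n).2 hn.2.2⟩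
  · intro n hn n' hn' h
    simp only [coe_filter, mem_range, Set.mem_ofPred_eq] at hn hn'
    have h1 : n % a = n' % a := congrArg Prod.fst h
    have h2 : n % b = n' % b := congrArg Prod.snd h
    have h3 : n ≡ n' [MOD a * b] := (Nat.modEq_and_modEq_iff_modEq_mul hab).1 ⟨h1, h2⟩
    exact Nat.ModEq.eq_of_lt_of_lt h3 hn.1 hn'.1

private theorem Dens_prod (Q : Finset ℕ) (hQ : ∀ q ∈ Q, q.Prime) (P : ℕ → ℕ → Prop) [∀ q, DecidablePred (P q)]
    (hP : ∀ q n, P q (n % q ^ 2) ↔ P q n) :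
    ((range (∏ q ∈ Q, q ^ 2)).filter fun n => ∀ q ∈ Q, P q n).card ≤
      ∏ q ∈ Q, ((range (q ^ 2)).filter (P q)).card := by
  induction Q using Finset.induction_on with
  | empty => simp
  | insert q Q hq ih =>
    rw [prod_insert hq, prod_insert hq]
    have h1 : ∀ n, (∀ q' ∈ Q, P q' (n % ∏ q ∈ Q, q ^ 2)) ↔ ∀ q' ∈ Q, P q' n := by
      intro n
      refine forall₂_congr fun q' hq' => ?_
      rw [← hP q' (n % _), Nat.mod_mod_of_dvd _ (dvd_prod_of_mem (fun q => q ^ 2) hq'), hP]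
    have hco : (q ^ 2).Coprime (∏ q ∈ Q, q ^ 2) := by
      refine Nat.Coprime.prod_right fun q' hq' => ?_
      refine Nat.Coprime.pow _ _ ?_
      rw [Nat.coprime_primes (hQ q (mem_insert_self _ _)) (hQ q' (mem_insert_of_mem hq'))]
      rintro rfl
      exact hq hq'
    have h2 := Dens_crt hco (P q) (fun n => ∀ q' ∈ Q, P q' n) (hP q) h1
    have h3 : ((range (q ^ 2 * ∏ q ∈ Q, q ^ 2)).filter fun n => ∀ q' ∈ insert q Q, P q' n) =
        (range (q ^ 2 * ∏ q ∈ Q, q ^ 2)).filter fun n => P q n ∧ ∀ q' ∈ Q, P q' n := by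
      refine filter_congr fun n _ => ?_
      simp only [mem_insert, forall_eq_or_imp]
    rw [h3]
    exact h2.trans (Nat.mul_le_mul_left _ (ih fun q' hq' => hQ q' (mem_insert_of_mem hq')))

private theorem Dens_count {M : ℕ} (hM : 0 < M) (G : ℕ → Prop) [DecidablePred G] (hG : ∀ n, G (n % M) ↔ G n) (x : ℕ) :
    ((range (x + 1)).filter G).card ≤ (x / M + 1) * ((range M).filter G).card := by
  rw [← card_range (x / M + 1), ← card_product]
  refine card_le_card_of_injOn (fun n => (n / M, n % M)) ?_ ?_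
  · intro n hn
    simp only [coe_filter, mem_range, Set.mem_ofPred_eq] at hn
    simp only [coe_product, coe_filter, coe_range, Set.mem_prod, Set.mem_Iio, mem_range, Set.mem_ofPred_eq]
    refine ⟨?_, Nat.mod_lt _ hM, (hG n).2 hn.2⟩
    have : n / M ≤ x / M := Nat.div_le_div_right (by omega)
    omega
  · intro n _ n' _ h
    have h1 : n / M = n' / M := congrArg Prod.fst h
    have h2 : n % M = n' % M := congrArg Prod.snd h
    rw [← Nat.div_add_mod n M, ← Nat.div_add_mod n' M, h1, h2]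

/-- the sieve -/
private theorem Dens_sieve (S : ℕ → Prop) [DecidablePred S] (hS : ∀ q, S q → q.Prime)
    (hdiv : ¬ Summable (fun q : ℕ => if S q then (1 : ℝ) / q else 0)) (P : ℕ → ℕ → Prop) [∀ q, DecidablePred (P q)]
    (hP : ∀ q n, P q (n % q ^ 2) ↔ P q n)
    (hc : ∀ q, S q → q ≤ 2 * ((range (q ^ 2)).filter fun n => ¬ P q n).card) (ε : ℝ) (hε : 0 < ε) :
    ∃ N : ℕ, ∀ᶠ x : ℕ in atTop,
      (((range (x + 1)).filter fun n => ∀ q < N, S q → P q n).card : ℝ) ≤ ε * x := by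
  have hnn : ∀ q : ℕ, 0 ≤ (if S q then (1 : ℝ) / q else 0) := fun q => by split_ifs <;> positivity
  have ht := (not_summable_iff_tendsto_nat_atTop_of_nonneg hnn).1 hdiv
  obtain ⟨N, hN⟩ := (ht.eventually_ge_atTop (2 * Real.log (2 / ε))).exists
  refine ⟨N, ?_⟩
  set Q := (range N).filter S with hQdef
  have hQ : ∀ q ∈ Q, q.Prime := fun q hq => hS q (mem_filter.1 hq).2
  set M := ∏ q ∈ Q, q ^ 2 with hMdef
  have hM : 0 < M := prod_pos fun q hq => pow_pos (hQ q hq).pos 2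
  have hg : ∀ q ∈ Q, (((range (q ^ 2)).filter (P q)).card : ℝ) ≤ (q : ℝ) ^ 2 * Real.exp (-(1 / (2 * (q : ℝ)))) := by
    intro q hq
    have hq0 : (0 : ℝ) < q := by exact_mod_cast (hQ q hq).pos
    have h1 := card_filter_add_card_filter_not (s := range (q ^ 2)) (P q)
    rw [card_range] at h1
    have h2 := hc q (mem_filter.1 hq).2
    have h3 : (((range (q ^ 2)).filter (P q)).card : ℝ) + (((range (q ^ 2)).filter fun n => ¬ P q n).card : ℝ) = (q : ℝ) ^ 2 := by
      exact_mod_cast h1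
    have h4 : (q : ℝ) ≤ 2 * (((range (q ^ 2)).filter fun n => ¬ P q n).card : ℝ) := by exact_mod_cast h2
    have h5 : 1 - 1 / (2 * (q : ℝ)) ≤ Real.exp (-(1 / (2 * (q : ℝ)))) := by
      have := Real.add_one_le_exp (-(1 / (2 * (q : ℝ))))
      linarith
    calc (((range (q ^ 2)).filter (P q)).card : ℝ) ≤ (q : ℝ) ^ 2 - q / 2 := by linarith
      _ = (q : ℝ) ^ 2 * (1 - 1 / (2 * (q : ℝ))) := by
        field_simp
      _ ≤ _ := mul_le_mul_of_nonneg_left h5 (by positivity)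
  have hsum : Real.log (2 / ε) ≤ ∑ q ∈ Q, 1 / (2 * (q : ℝ)) := by
    have h1 : ∑ i ∈ range N, (if S i then (1 : ℝ) / i else 0) = ∑ q ∈ Q, (1 : ℝ) / q := by
      rw [hQdef, sum_filter]
    rw [h1] at hN
    have h2 : ∑ q ∈ Q, 1 / (2 * (q : ℝ)) = (∑ q ∈ Q, (1 : ℝ) / q) / 2 := by
      rw [sum_div]
      refine sum_congr rfl fun q _ => ?_
      rw [div_div, mul_comm]
    rw [h2]
    linarith
  have hprod : ((∏ q ∈ Q, ((range (q ^ 2)).filter (P q)).card : ℕ) : ℝ) ≤ M * (ε / 2) := by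
    push_cast
    calc ∏ q ∈ Q, (((range (q ^ 2)).filter (P q)).card : ℝ) ≤ ∏ q ∈ Q, ((q : ℝ) ^ 2 * Real.exp (-(1 / (2 * (q : ℝ))))) :=
          prod_le_prod (fun q _ => Nat.cast_nonneg _) hg
      _ = M * Real.exp (-∑ q ∈ Q, 1 / (2 * (q : ℝ))) := by
        rw [prod_mul_distrib, ← Real.exp_sum, sum_neg_distrib, hMdef]
        push_cast
        rfl
      _ ≤ M * (ε / 2) := by
        refine mul_le_mul_of_nonneg_left ?_ (Nat.cast_nonneg _)
        calc Real.exp (-∑ q ∈ Q, 1 / (2 * (q : ℝ))) ≤ Real.exp (-Real.log (2 / ε)) := Real.exp_le_exp.2 (by linarith)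
          _ = ε / 2 := by
            rw [Real.exp_neg, Real.exp_log (by positivity), inv_div]
  filter_upwards [eventually_ge_atTop M] with x hx
  have hper : ∀ n, (∀ q ∈ Q, P q (n % M)) ↔ ∀ q ∈ Q, P q n := by
    intro n
    refine forall₂_congr fun q' hq' => ?_
    rw [← hP q' (n % _), Nat.mod_mod_of_dvd _ (dvd_prod_of_mem (fun q => q ^ 2) hq'), hP]
  have h1 := Dens_count hM (fun n => ∀ q ∈ Q, P q n) hper x
  have h2 := Dens_prod Q hQ P hP
  have h3 : ((range (x + 1)).filter fun n => ∀ q < N, S q → P q n) =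
      (range (x + 1)).filter fun n => ∀ q ∈ Q, P q n := by
    refine filter_congr fun n _ => ?_
    simp only [hQdef, mem_filter, mem_range, and_imp]
  rw [h3]
  have h4 : (((range (x + 1)).filter fun n => ∀ q ∈ Q, P q n).card : ℝ) ≤
      ((x / M : ℕ) + 1 : ℝ) * ((∏ q ∈ Q, ((range (q ^ 2)).filter (P q)).card : ℕ) : ℝ) := by
    exact_mod_cast h1.trans (Nat.mul_le_mul_left _ h2)
  have hM' : (0 : ℝ) < M := by exact_mod_cast hM
  have hx' : (M : ℝ) ≤ x := by exact_mod_cast hx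
  have h5 : ((x / M : ℕ) : ℝ) ≤ (x : ℝ) / M := Nat.cast_div_le
  calc (((range (x + 1)).filter fun n => ∀ q ∈ Q, P q n).card : ℝ) ≤
      ((x / M : ℕ) + 1 : ℝ) * ((∏ q ∈ Q, ((range (q ^ 2)).filter (P q)).card : ℕ) : ℝ) := h4
    _ ≤ ((x : ℝ) / M + 1) * (M * (ε / 2)) := by
      refine mul_le_mul (by linarith) hprod (Nat.cast_nonneg _) (by positivity)
    _ = (x + M) * (ε / 2) := by
      field_simp
    _ ≤ (x + x) * (ε / 2) := by
      refine mul_le_mul_of_nonneg_right (by linarith) (by positivity)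
    _ = ε * x := by ring

/-! ### arithmetic -/

private theorem Dens_val {p n : ℕ} (hp : p.Prime) : (p ∣ n ∧ ¬ p ^ 2 ∣ n) → padicValNat p n = 1 := by
  rintro ⟨h1, h2⟩
  have hn : n ≠ 0 := by
    rintro rfl
    exact h2 (dvd_zero _)
  have : Fact p.Prime := ⟨hp⟩
  have h3 : 1 ≤ padicValNat p n := (padicValNat_dvd_iff_le hn).1 (by simpa using h1)
  have h4 : ¬ 2 ≤ padicValNat p n := fun h => h2 ((padicValNat_dvd_iff_le hn).2 h)
  omega

/-- residues prescribed for the second prime -/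
private theorem Dens_res {p : ℕ} (hp : p.Prime) : ∃ (m : ℕ) (a : ZMod m), NeZero m ∧ IsUnit a ∧
    ∀ q : ℕ, q.Prime → (q : ZMod m) = a → q % 3 = 1 ∧ ¬ IsSquare (p : ZMod q) := by
  rcases eq_or_ne p 2 with rfl | hp2
  · refine ⟨24, 13, ⟨by norm_num⟩, by decide, ?_⟩
    intro q hq hqa
    have : Fact q.Prime := ⟨hq⟩
    have h1 : q % 24 = 13 := by
      have h2 : (q : ZMod 24) = ((13 : ℕ) : ZMod 24) := hqa
      exact (ZMod.natCast_eq_natCast_iff' _ _ _).1 h2
    refine ⟨by omega, ?_⟩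
    have h2 := ZMod.exists_sq_eq_two_iff (p := q) (by omega)
    rw [Nat.cast_ofNat, h2]
    omega
  rcases eq_or_ne p 3 with rfl | hp3
  · refine ⟨12, 7, ⟨by norm_num⟩, by decide, ?_⟩
    intro q hq hqa
    have : Fact q.Prime := ⟨hq⟩
    have : Fact (Nat.Prime 3) := ⟨Nat.prime_three⟩
    have h1 : q % 12 = 7 := by
      have h2 : (q : ZMod 12) = ((7 : ℕ) : ZMod 12) := hqa
      exact (ZMod.natCast_eq_natCast_iff' _ _ _).1 h2
    refine ⟨by omega, ?_⟩
    have h2 := ZMod.exists_sq_eq_prime_iff_of_mod_four_eq_three (p := q) (q := 3) (by omega) (by norm_num) (by omega)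
    rw [h2, not_not]
    have h3 : (q : ZMod 3) = 1 := by
      have h4 : (q : ZMod 3) = ((1 : ℕ) : ZMod 3) := (ZMod.natCast_eq_natCast_iff' _ _ _).2 (by omega)
      rw [h4, Nat.cast_one]
    rw [h3]
    exact IsSquare.one
  · have : Fact p.Prime := ⟨hp⟩
    have hch : ringChar (ZMod p) ≠ 2 := by rwa [ZMod.ringChar_zmod_n]
    obtain ⟨b, hb⟩ := FiniteField.exists_nonsquare hch
    have hco : Nat.Coprime 12 p := by
      have h1 : Nat.Coprime 2 p := (Nat.coprime_primes Nat.prime_two hp).2 (Ne.symm hp2)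
      have h2 : Nat.Coprime 3 p := (Nat.coprime_primes Nat.prime_three hp).2 (Ne.symm hp3)
      have h3 : (12 : ℕ) = 2 * 2 * 3 := by norm_num
      rw [h3]
      exact Nat.Coprime.mul_left (Nat.Coprime.mul_left h1 h1) h2
    obtain ⟨A, hA1, hA2⟩ := Nat.chineseRemainder hco 1 b.val
    have hbA : ((A : ℕ) : ZMod p) = b := by
      rw [(ZMod.natCast_eq_natCast_iff _ _ _).2 hA2, ZMod.natCast_zmod_val]
    have hb0 : b ≠ 0 := by
      rintro rfl
      exact hb ⟨0, by simp⟩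
    have hAp : Nat.Coprime A p := by
      rw [Nat.coprime_comm, hp.coprime_iff_not_dvd]
      intro h
      apply hb0
      rw [← hbA]
      exact (ZMod.natCast_eq_zero_iff _ _).2 h
    have hA12 : Nat.Coprime A 12 := by
      have h1 : Nat.gcd A 12 = Nat.gcd 1 12 := Nat.ModEq.gcd_eq hA1
      simpa using h1
    refine ⟨12 * p, (A : ZMod (12 * p)), ⟨by have := hp.pos; positivity⟩, ?_, ?_⟩
    · rw [ZMod.isUnit_iff_coprime]
      exact Nat.Coprime.mul_right hA12 hAp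
    · intro q hq hqa
      have : Fact q.Prime := ⟨hq⟩
      have h1 : q ≡ A [MOD 12 * p] := (ZMod.natCast_eq_natCast_iff _ _ _).1 hqa
      have h2 : q ≡ 1 [MOD 12] := (h1.of_mul_right p).trans hA1
      have h3 : (q : ZMod p) = b := by
        rw [← hbA]
        exact (ZMod.natCast_eq_natCast_iff _ _ _).2 (h1.of_mul_left 12)
      have h4 : q % 12 = 1 := h2
      refine ⟨by omega, ?_⟩
      have h5 := ZMod.exists_sq_eq_prime_iff_of_mod_four_eq_one (p := q) (q := p) (by omega) hp2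
      rw [h5, h3]
      exact hb

private theorem Dens_root {q : ℕ} (hq : q.Prime) (h3 : q % 3 = 1) : ∃ w : ℕ, q ∣ w ^ 2 + w + 1 := by
  have : Fact q.Prime := ⟨hq⟩
  have : Fact (Nat.Prime 3) := ⟨Nat.prime_three⟩
  have hcard : 3 ∣ Fintype.card (ZMod q)ˣ := by
    rw [ZMod.card_units]
    omega
  obtain ⟨g, hg⟩ := exists_prime_orderOf_dvd_card 3 hcard
  refine ⟨(g : ZMod q).val, ?_⟩
  rw [← ZMod.natCast_eq_zero_iff]
  push_cast
  rw [ZMod.natCast_zmod_val]
  have h1 : (g : ZMod q) ^ 3 = 1 := by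
    have := pow_orderOf_eq_one g
    rw [hg] at this
    rw [← Units.val_pow_eq_pow_val, this, Units.val_one]
  have h2 : (g : ZMod q) ≠ 1 := by
    intro h
    have h4 : g = 1 := Units.ext h
    rw [h4, orderOf_one] at hg
    omega
  have h4 : ((g : ZMod q) - 1) * ((g : ZMod q) ^ 2 + g + 1) = 0 := by linear_combination h1
  exact (mul_eq_zero.1 h4).resolve_left (sub_ne_zero.2 h2)

private theorem Dens_two {q w : ℕ} (hq : q.Prime) (h3 : q % 3 = 1) (hw : q ∣ w ^ 2 + w + 1) : ¬ (q : ℤ) ∣ 2 * w + 1 := by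
  intro h
  have h1 : (q : ℤ) ∣ 3 := by
    have h2 : (q : ℤ) ∣ (w ^ 2 + w + 1 : ℤ) := by exact_mod_cast hw
    have h4 : (3 : ℤ) = 4 * (w ^ 2 + w + 1 : ℤ) - (2 * w + 1) * (2 * w + 1) := by ring
    rw [h4]
    exact dvd_sub (Dvd.dvd.mul_left h2 4) (Dvd.dvd.mul_left h _)
  have h2 : q ∣ 3 := by exact_mod_cast h1
  have h4 := (Nat.prime_dvd_prime_iff_eq hq Nat.prime_three).1 h2
  omega

private theorem Dens_card {q : ℕ} (hq : q.Prime) (h3 : q % 3 = 1) :
    q ≤ 2 * ((range (q ^ 2)).filter fun n => ¬ ¬ (q ∣ n ^ 2 + n + 1 ∧ ¬ q ^ 2 ∣ n ^ 2 + n + 1)).card := by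
  obtain ⟨w, hw⟩ := Dens_root hq h3
  have hq0 := hq.pos
  have htwo := Dens_two hq h3 hw
  have hqZ : (q : ℤ) ≠ 0 := by exact_mod_cast hq0.ne'
  have hqp : Prime (q : ℤ) := Nat.prime_iff_prime_int.1 hq
  -- the bad indices
  have hbad : ((range q).filter fun k => q ^ 2 ∣ (w + q * k) ^ 2 + (w + q * k) + 1).card ≤ 1 := by
    rw [card_le_one]
    intro k hk k' hk'
    simp only [mem_filter, mem_range] at hk hk'
    have h1 : ((q : ℤ) ^ 2) ∣ ((w + q * k) ^ 2 + (w + q * k) + 1 : ℤ) := by exact_mod_cast hk.2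
    have h2 : ((q : ℤ) ^ 2) ∣ ((w + q * k') ^ 2 + (w + q * k') + 1 : ℤ) := by exact_mod_cast hk'.2
    have h4 : (q : ℤ) * q ∣ q * ((k - k' : ℤ) * (2 * w + 1 + q * (k + k'))) := by
      have h5 := dvd_sub h1 h2
      have h6 : ((w + q * k) ^ 2 + (w + q * k) + 1 : ℤ) - ((w + q * k') ^ 2 + (w + q * k') + 1) =
          q * ((k - k' : ℤ) * (2 * w + 1 + q * (k + k'))) := by ring
      rw [h6, sq] at h5
      exact h5
    have h5 : (q : ℤ) ∣ (k - k' : ℤ) * (2 * w + 1 + q * (k + k')) := (mul_dvd_mul_iff_left hqZ).1 h4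
    rcases hqp.dvd_or_dvd h5 with h6 | h6
    · have h7 : k ≡ k' [MOD q] := by
        rw [Nat.modEq_iff_dvd]
        have := (dvd_neg).2 h6
        simpa using this
      exact Nat.ModEq.eq_of_lt_of_lt h7 hk.1 hk'.1
    · exfalso
      apply htwo
      have h7 : (q : ℤ) ∣ q * (k + k') := dvd_mul_right _ _
      have h8 := dvd_sub h6 h7
      simpa using h8
  have hgood : q ≤ ((range q).filter fun k => ¬ q ^ 2 ∣ (w + q * k) ^ 2 + (w + q * k) + 1).card + 1 := by
    have h1 := card_filter_add_card_filter_not (s := range q) (fun k => q ^ 2 ∣ (w + q * k) ^ 2 + (w + q * k) + 1)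
    rw [card_range] at h1
    omega
  have hinj : ((range q).filter fun k => ¬ q ^ 2 ∣ (w + q * k) ^ 2 + (w + q * k) + 1).card ≤
      ((range (q ^ 2)).filter fun n => ¬ ¬ (q ∣ n ^ 2 + n + 1 ∧ ¬ q ^ 2 ∣ n ^ 2 + n + 1)).card := by
    refine card_le_card_of_injOn (fun k => (w + q * k) % q ^ 2) ?_ ?_
    · intro k hk
      simp only [coe_filter, mem_range, Set.mem_ofPred_eq] at hk
      simp only [coe_filter, mem_range, Set.mem_ofPred_eq, not_not]
      refine ⟨Nat.mod_lt _ (by positivity), ?_, ?_⟩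
      · have h1 : ((w + q * k) % q ^ 2) ^ 2 + (w + q * k) % q ^ 2 + 1 ≡ w ^ 2 + w + 1 [MOD q] := by
          have h2 : (w + q * k) % q ^ 2 ≡ w [MOD q] := by
            have h5 : (w + q * k) % q ^ 2 ≡ w + q * k [MOD q] :=
              (Nat.mod_modEq (w + q * k) (q ^ 2)).of_dvd (dvd_pow_self q two_ne_zero)
            refine h5.trans ?_
            simp
          exact ((h2.pow 2).add h2).add_right 1
        exact (Nat.modEq_zero_iff_dvd.1 (h1.trans (Nat.modEq_zero_iff_dvd.2 hw)))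
      · intro h
        apply hk.2
        have h2 : (w + q * k) % q ^ 2 ≡ w + q * k [MOD q ^ 2] := Nat.mod_modEq _ _
        have h1 : ((w + q * k) % q ^ 2) ^ 2 + (w + q * k) % q ^ 2 + 1 ≡ (w + q * k) ^ 2 + (w + q * k) + 1 [MOD q ^ 2] :=
          ((h2.pow 2).add h2).add_right 1
        exact Nat.modEq_zero_iff_dvd.1 (h1.symm.trans (Nat.modEq_zero_iff_dvd.2 h))
    · intro k hk k' hk' h
      simp only [coe_filter, mem_range, Set.mem_ofPred_eq] at hk hk'
      have h1 : w + q * k ≡ w + q * k' [MOD q ^ 2] := h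
      have h2 : q * k ≡ q * k' [MOD q * q] := by
        rw [← sq]
        exact Nat.ModEq.add_left_cancel' w h1
      have h4 : k ≡ k' [MOD q] := Nat.ModEq.mul_left_cancel' hq0.ne' h2
      exact Nat.ModEq.eq_of_lt_of_lt h4 hk.1 hk'.1
  have := hq.two_le
  omega

private theorem Dens_card_p {p : ℕ} (hp : p.Prime) :
    p ≤ 2 * ((range (p ^ 2)).filter fun n => ¬ ¬ (p ∣ n ∧ ¬ p ^ 2 ∣ n)).card := by
  have hinj : (Ico 1 p).card ≤ ((range (p ^ 2)).filter fun n => ¬ ¬ (p ∣ n ∧ ¬ p ^ 2 ∣ n)).card := by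
    refine card_le_card_of_injOn (fun k => p * k) ?_ ?_
    · intro k hk
      simp only [coe_Ico, Set.mem_Ico] at hk
      have h1 : p * k < p ^ 2 := by
        rw [sq]
        exact Nat.mul_lt_mul_of_pos_left hk.2 hp.pos
      simp only [coe_filter, mem_range, Set.mem_ofPred_eq, not_not]
      refine ⟨h1, dvd_mul_right _ _, ?_⟩
      intro h
      have h2 := Nat.le_of_dvd (Nat.mul_pos hp.pos hk.1) h
      omega
    · intro k _ k' _ h
      exact Nat.eq_of_mul_eq_mul_left hp.pos h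
  rw [Nat.card_Ico] at hinj
  have := hp.two_le
  omega

private theorem Dens_per (f : ℕ → ℕ) (hf : ∀ m n n', n ≡ n' [MOD m] → f n ≡ f n' [MOD m]) (q n : ℕ) :
    ¬ (q ∣ f (n % q ^ 2) ∧ ¬ q ^ 2 ∣ f (n % q ^ 2)) ↔ ¬ (q ∣ f n ∧ ¬ q ^ 2 ∣ f n) := by
  have h1 : n % q ^ 2 ≡ n [MOD q ^ 2] := Nat.mod_modEq _ _
  have h2 := hf _ _ _ h1
  have h3 := h2.of_dvd (dvd_pow_self q two_ne_zero)
  have h4 : q ^ 2 ∣ f (n % q ^ 2) ↔ q ^ 2 ∣ f n := h2.dvd_iff dvd_rfl
  have h5 : q ∣ f (n % q ^ 2) ↔ q ∣ f n := h3.dvd_iff dvd_rfl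
  rw [h4, h5]

theorem mannGood_density :
    Tendsto (fun x : ℕ => (({n : ℕ | n ≤ x ∧ MannGood n}.ncard : ℕ) : ℝ) / x) atTop (𝓝 0) := by
  classical
  -- for every `ε` the number is at most `ε x` for large `x`
  have key : ∀ ε : ℝ, 0 < ε → ∀ᶠ x : ℕ in atTop, (({n : ℕ | n ≤ x ∧ MannGood n}.ncard : ℕ) : ℝ) ≤ ε * x := by
    intro ε hε
    have hS1 : ¬ Summable (fun q : ℕ => if q.Prime ∧ (q : ZMod 1) = 0 then (1 : ℝ) / q else 0) :=
      not_summable_inv_prime_AP (m := 1) (a := 0) (isUnit_of_subsingleton _)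
    obtain ⟨P, hP⟩ := Dens_sieve (fun q => q.Prime ∧ (q : ZMod 1) = 0) (fun q h => h.1) hS1
      (fun q n => ¬ (q ∣ n ∧ ¬ q ^ 2 ∣ n)) (Dens_per (fun n => n) fun m n n' h => h)
      (fun q h => Dens_card_p h.1) (ε / 2) (by positivity)
    have hp : ∀ p : ℕ, ∃ N : ℕ, ∃ m : ℕ, ∃ a : ZMod m, (p.Prime → ∀ q : ℕ, q.Prime → (q : ZMod m) = a → ¬ IsSquare (p : ZMod q)) ∧
        (p.Prime → ∀ᶠ x : ℕ in atTop, (((range (x + 1)).filter fun n => ∀ q < N, (q.Prime ∧ (q : ZMod m) = a) →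
          ¬ (q ∣ n ^ 2 + n + 1 ∧ ¬ q ^ 2 ∣ n ^ 2 + n + 1)).card : ℝ) ≤ ε / (2 * (P + 1)) * x) := by
      intro p
      by_cases hpp : p.Prime
      · obtain ⟨m, a, hm, ha, hma⟩ := Dens_res hpp
        obtain ⟨N, hN⟩ := Dens_sieve (fun q => q.Prime ∧ (q : ZMod m) = a) (fun q h => h.1) (not_summable_inv_prime_AP ha)
          (fun q n => ¬ (q ∣ n ^ 2 + n + 1 ∧ ¬ q ^ 2 ∣ n ^ 2 + n + 1))
          (Dens_per (fun n => n ^ 2 + n + 1) fun m n n' h => ((h.pow 2).add h).add_right 1)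
          (fun q h => Dens_card h.1 (hma q h.1 h.2).1) (ε / (2 * (P + 1))) (by positivity)
        exact ⟨N, m, a, fun _ q hq hqa => (hma q hq hqa).2, fun _ => hN⟩
      · exact ⟨0, 0, 0, fun h => absurd h hpp, fun h => absurd h hpp⟩
    choose N m a hna hNx using hp
    have hall : ∀ᶠ x : ℕ in atTop, ∀ p ∈ (range P).filter Nat.Prime,
        (((range (x + 1)).filter fun n => ∀ q < N p, (q.Prime ∧ (q : ZMod (m p)) = a p) →
          ¬ (q ∣ n ^ 2 + n + 1 ∧ ¬ q ^ 2 ∣ n ^ 2 + n + 1)).card : ℝ) ≤ ε / (2 * (P + 1)) * x := by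
      rw [Filter.eventually_all_finset]
      intro p hp
      exact hNx p (mem_filter.1 hp).2
    filter_upwards [hP, hall] with x hx1 hx2
    have hsub : {n : ℕ | n ≤ x ∧ MannGood n} ⊆
        ((((range (x + 1)).filter fun n => ∀ q < P, (q.Prime ∧ (q : ZMod 1) = 0) → ¬ (q ∣ n ∧ ¬ q ^ 2 ∣ n)) ∪
          ((range P).filter Nat.Prime).biUnion fun p => (range (x + 1)).filter fun n => ∀ q < N p, (q.Prime ∧ (q : ZMod (m p)) = a p) →
            ¬ (q ∣ n ^ 2 + n + 1 ∧ ¬ q ^ 2 ∣ n ^ 2 + n + 1) : Finset ℕ) : Set ℕ) := by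
      rintro n ⟨hnx, hn⟩
      rw [mem_coe, mem_union, mem_biUnion]
      have hr : n ∈ range (x + 1) := by
        rw [mem_range]
        omega
      by_contra hcon
      push Not at hcon
      obtain ⟨h1, h2⟩ := hcon
      rw [mem_filter] at h1
      push Not at h1
      obtain ⟨p, hpP, hp1, hp2⟩ := h1 hr
      have hpp := hp1.1
      have h3 := h2 p (mem_filter.2 ⟨mem_range.2 hpP, hpp⟩)
      rw [mem_filter] at h3
      push Not at h3
      obtain ⟨q, hqN, hq1, hq2⟩ := h3 hr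
      have hv1 := Dens_val hpp hp2
      have hv2 := Dens_val hq1.1 hq2
      have hodd := hn p q hpp hq1.1 (by rw [hv1]; exact odd_one) (by rw [hv2]; exact odd_one)
      apply hna p hpp q hq1.1 hq1.2
      obtain ⟨t, ht⟩ := hodd
      have h4 := pow_orderOf_eq_one (p : ZMod q)
      rw [ht] at h4
      refine ⟨(p : ZMod q) ^ (t + 1), ?_⟩
      have h5 : (p : ZMod q) ^ (t + 1) * (p : ZMod q) ^ (t + 1) = (p : ZMod q) ^ (2 * t + 1) * p := by ring
      rw [h5, h4, one_mul]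
    have h1 := Set.ncard_le_ncard hsub (Finset.finite_toSet _)
    rw [Set.ncard_coe_finset] at h1
    have h2 := h1.trans ((card_union_le _ _).trans (Nat.add_le_add_left card_biUnion_le _))
    have h3 : (({n : ℕ | n ≤ x ∧ MannGood n}.ncard : ℕ) : ℝ) ≤
        (((range (x + 1)).filter fun n => ∀ q < P, (q.Prime ∧ (q : ZMod 1) = 0) → ¬ (q ∣ n ∧ ¬ q ^ 2 ∣ n)).card : ℝ) +
        ∑ p ∈ (range P).filter Nat.Prime, (((range (x + 1)).filter fun n => ∀ q < N p, (q.Prime ∧ (q : ZMod (m p)) = a p) →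
            ¬ (q ∣ n ^ 2 + n + 1 ∧ ¬ q ^ 2 ∣ n ^ 2 + n + 1)).card : ℝ) := by
      exact_mod_cast h2
    refine h3.trans ((add_le_add hx1 (sum_le_sum hx2)).trans ?_)
    rw [sum_const, nsmul_eq_mul]
    have h4 : (((range P).filter Nat.Prime).card : ℝ) ≤ P := by
      have := card_filter_le (range P) Nat.Prime
      rw [card_range] at this
      exact_mod_cast this
    have hx0 : (0 : ℝ) ≤ x := Nat.cast_nonneg x
    have hP0 : (0 : ℝ) ≤ P := Nat.cast_nonneg P
    have h5 : (((range P).filter Nat.Prime).card : ℝ) * (ε / (2 * (P + 1)) * x) ≤ (P + 1) * (ε / (2 * (P + 1)) * x) :=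
      mul_le_mul_of_nonneg_right (by linarith) (by positivity)
    have h6 : ((P : ℝ) + 1) * (ε / (2 * (P + 1)) * x) = ε / 2 * x := by
      field_simp
    linarith
  rw [Metric.tendsto_atTop]
  intro ε hε
  obtain ⟨X, hX⟩ := eventually_atTop.1 (key (ε / 2) (by positivity))
  refine ⟨max X 1, fun x hx => ?_⟩
  have hx1 : X ≤ x := (le_max_left _ _).trans hx
  have hx2 : 1 ≤ x := (le_max_right _ _).trans hx
  have hx0 : (0 : ℝ) < x := by exact_mod_cast hx2
  rw [Real.dist_eq, sub_zero, abs_of_nonneg (by positivity), div_lt_iff₀ hx0]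
  have := hX x hx1
  nlinarith

end Pool.Agent.H12.ST
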