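import Pool.Agent.H12.ST.Cyc
import Pool.Agent.H12.ST.Dens

set_option autoImplicit false

/-!
Assembly.
-/

namespace Pool.Agent.H12.ST

open Finset MulAction Configuration

/-- The plane has a nilpotent group of collineations which is transitive on the points. -/
def NilTrans (P L : Type) [Membership P L] : Prop :=
  ∃ (G : Type) (_ : Group G) (_ : MulAction G P) (_ : MulAction G L),
    Group.IsNilpotent G ∧ (∀ (g : G) (p : P) (l : L), g • p ∈ g • l ↔ p ∈ l) ∧
    MulAction.IsPretransitive G P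

section

variable {P L : Type} [Membership P L] [Finite P] [Finite L] [ProjectivePlane P L]

lemma natCard_P : Nat.card P = ProjectivePlane.order P L ^ 2 + ProjectivePlane.order P L + 1 := by
  have := Fintype.ofFinite P
  rw [Nat.card_eq_fintype_card, ProjectivePlane.card_points P L]

lemma natCard_L : Nat.card L = ProjectivePlane.order P L ^ 2 + ProjectivePlane.order P L + 1 := by
  have := Fintype.ofFinite L
  rw [Nat.card_eq_fintype_card, ProjectivePlane.card_lines P L]

lemma exists_pt (P L : Type) [Membership P L] [ProjectivePlane P L] : Nonempty P := by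
  obtain ⟨p, _⟩ := (inferInstance : ProjectivePlane P L).exists_config
  exact ⟨p⟩

/-- block labelling from a cyclic normal subgroup -/
theorem block_of_cyc {G : Type} [Group G] [Finite G] [MulAction G P] [MulAction G L]
    [FaithfulSMul G P] [MulAction.IsPretransitive G P]
    (hmem : ∀ (g : G) (p : P) (l : L), g • p ∈ g • l ↔ p ∈ l)
    (C : Subgroup G) [C.Normal] (hC : IsCyclic C) {k : ℕ}
    (hk : Nat.card P = Nat.card C * k) : IsBlockCyc P L k (Nat.card C) := by
  have hcom : ∀ a ∈ C, ∀ b ∈ C, a * b = b * a := by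
    intro a ha b hb
    obtain ⟨g, hg⟩ := hC.exists_generator
    obtain ⟨i, hi⟩ := Subgroup.mem_zpowers_iff.1 (hg ⟨a, ha⟩)
    obtain ⟨j, hj⟩ := Subgroup.mem_zpowers_iff.1 (hg ⟨b, hb⟩)
    have h1 : (⟨a, ha⟩ : C) * ⟨b, hb⟩ = ⟨b, hb⟩ * ⟨a, ha⟩ := by
      rw [← hi, ← hj, ← zpow_add, ← zpow_add, add_comm]
    exact congrArg Subtype.val h1
  have hx : ∀ x : P, stabilizer C x = ⊥ := fun x => semireg hmem C hcom x
  have hy : ∀ y : L, stabilizer C y = ⊥ := by
    intro y
    obtain ⟨x⟩ := exists_pt P L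
    have h1 := stab_card hmem C x y
    rw [hx x] at h1
    exact Subgroup.eq_bot_of_card_eq _ (by rw [← h1]; simp)
  refine label_block hmem C hC rfl (by rw [hk, mul_comm]) ?_ hx hy
  rw [natCard_L (P := P) (L := L), ← natCard_P (P := P) (L := L), hk, mul_comm]

theorem block_of_solTrans (h : SolTrans P L)
    (hsq : Squarefree (ProjectivePlane.order P L ^ 2 + ProjectivePlane.order P L + 1)) :
    ∃ k m : ℕ, k * m = ProjectivePlane.order P L ^ 2 + ProjectivePlane.order P L + 1 ∧
      k ∣ Nat.gcd (ProjectivePlane.order P L ^ 2 + ProjectivePlane.order P L + 1)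
        (Nat.totient (ProjectivePlane.order P L ^ 2 + ProjectivePlane.order P L + 1)) ∧
      IsBlockCyc P L k m := by
  obtain ⟨G0, _, _, _, hsol, hmem0, ht0⟩ := h
  obtain ⟨G, _, _, _, _, φ, hsur, hf, hP, hL, hmem⟩ := reduce G0 hmem0
  have hsolG : Group.IsSolvable G := Group.isSolvable_of_surjective hsur
  have ht : MulAction.IsPretransitive G P := ⟨fun x y => by
    obtain ⟨g, hg⟩ := MulAction.exists_smul_eq G0 x y
    exact ⟨φ g, by rw [hP, hg]⟩⟩
  rw [← natCard_P (P := P) (L := L)] at hsq ⊢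
  obtain ⟨C, hCn, hC, hcc⟩ := self_cent hmem hsq
  obtain ⟨x⟩ := exists_pt P L
  have hcom : ∀ a ∈ C, ∀ b ∈ C, a * b = b * a := by
    intro a ha b hb
    have h1 : b ∈ Subgroup.centralizer (C : Set G) := by rw [hcc]; exact hb
    exact (Subgroup.mem_centralizer_iff.1 h1) a ha
  obtain ⟨k, hk, hkd⟩ := cyc_card C hC hcc x (semireg hmem C hcom x)
  exact ⟨k, Nat.card C, by rw [hk, mul_comm], hkd, block_of_cyc hmem C hC hk⟩

lemma squarefree_of_coprime {N : ℕ} (h : Nat.Coprime N (Nat.totient N)) :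
    Squarefree N := by
  rw [Nat.squarefree_iff_prime_squarefree]
  intro r hr hd
  have h1 : r ∣ Nat.totient N := by
    have h2 := Nat.totient_dvd_of_dvd hd
    have h3 : Nat.totient (r * r) = r * (r - 1) := by
      rw [← sq, Nat.totient_prime_pow hr (by norm_num)]; simp
    rw [h3] at h2
    exact (Dvd.intro _ rfl).trans h2
  have h4 : r ∣ N := (Dvd.intro _ rfl).trans hd
  have h5 : r ∣ Nat.gcd N (Nat.totient N) := Nat.dvd_gcd h4 h1
  rw [h] at h5
  exact hr.one_lt.ne' (Nat.dvd_one.1 h5)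

theorem cyc_of_solTrans (h : SolTrans P L)
    (hN : Nat.Coprime (ProjectivePlane.order P L ^ 2 + ProjectivePlane.order P L + 1)
      (Nat.totient (ProjectivePlane.order P L ^ 2 + ProjectivePlane.order P L + 1))) :
    IsCyc P L (ProjectivePlane.order P L) := by
  obtain ⟨k, m, hkm, hk, hb⟩ := block_of_solTrans h (squarefree_of_coprime hN)
  rw [hN] at hk
  have hk1 := Nat.dvd_one.1 hk
  subst hk1
  rw [one_mul] at hkm
  subst hkm
  exact isCyc_of_block hb

theorem cyc_of_nilTrans (h : NilTrans P L)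
    (hsq : Squarefree (ProjectivePlane.order P L ^ 2 + ProjectivePlane.order P L + 1)) :
    IsCyc P L (ProjectivePlane.order P L) := by
  obtain ⟨G0, _, _, _, hnil, hmem0, ht0⟩ := h
  obtain ⟨G, _, _, _, _, φ, hsur, hf, hP, hL, hmem⟩ := reduce G0 hmem0
  have hnilG : Group.IsNilpotent G := Group.nilpotent_of_surjective φ hsur
  have ht : MulAction.IsPretransitive G P := ⟨fun x y => by
    obtain ⟨g, hg⟩ := MulAction.exists_smul_eq G0 x y
    exact ⟨φ g, by rw [hP, hg]⟩⟩
  have hnilT : Group.IsNilpotent (⊤ : Subgroup G) :=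
    Group.nilpotent_of_surjective (Subgroup.topEquiv (G := G)).symm.toMonoidHom
      (Subgroup.topEquiv (G := G)).symm.surjective
  rw [← natCard_P (P := P) (L := L)] at hsq
  have hC : IsCyclic (⊤ : Subgroup G) := nilp_cyclic hmem hsq ⊤
  obtain ⟨x⟩ := exists_pt P L
  have hcom : ∀ a ∈ (⊤ : Subgroup G), ∀ b ∈ (⊤ : Subgroup G), a * b = b * a := by
    intro a ha b hb
    obtain ⟨g, hg⟩ := hC.exists_generator
    obtain ⟨i, hi⟩ := Subgroup.mem_zpowers_iff.1 (hg ⟨a, ha⟩)
    obtain ⟨j, hj⟩ := Subgroup.mem_zpowers_iff.1 (hg ⟨b, hb⟩)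
    have h1 : (⟨a, ha⟩ : (⊤ : Subgroup G)) * ⟨b, hb⟩ = ⟨b, hb⟩ * ⟨a, ha⟩ := by
      rw [← hi, ← hj, ← zpow_add, ← zpow_add, add_comm]
    exact congrArg Subtype.val h1
  have hst := semireg hmem (⊤ : Subgroup G) hcom x
  have h1 := card_of_semireg (⊤ : Subgroup G) x hst
  have h2 : Nat.card (orbit (⊤ : Subgroup G) x) = Nat.card P := by
    have h3 : orbit (⊤ : Subgroup G) x = Set.univ := by
      ext y
      simp only [Set.mem_univ, iff_true]
      obtain ⟨g, hg⟩ := MulAction.exists_smul_eq G x y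
      exact ⟨⟨g, trivial⟩, hg⟩
    rw [h3]
    exact Nat.card_congr (Equiv.Set.univ P)
  have h4 : Nat.card P = Nat.card (⊤ : Subgroup G) * 1 := by rw [mul_one, ← h1, h2]
  have hb := block_of_cyc hmem (⊤ : Subgroup G) hC h4
  rw [← h1, h2, natCard_P (P := P) (L := L)] at hb
  exact isCyc_of_block hb

end

open Filter Topology in
theorem density :
    Tendsto (fun x : ℕ => (({n : ℕ | n ≤ x ∧
      ∃ (P L : Type) (_ : Membership P L) (_ : Finite P) (_ : Finite L)
        (_ : ProjectivePlane P L), ProjectivePlane.order P L = n ∧ SolTrans P L}.ncard : ℕ) : ℝ)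
        / x) atTop (𝓝 0) := by
  refine squeeze_zero (fun x => by positivity) (fun x => ?_) mannGood_density
  refine div_le_div_of_nonneg_right ?_ (Nat.cast_nonneg x)
  refine Nat.cast_le.2 (Set.ncard_le_ncard ?_ ((Set.finite_Iic x).subset fun n hn => hn.1))
  rintro n ⟨hn, P, L, _, _, _, _, rfl, hs⟩
  exact ⟨hn, mannGood_of_solTrans hs⟩

end Pool.Agent.H12.ST
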