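import Pool.Agent.H12.ST.Pln

set_option autoImplicit false

/-!
Normal subgroups of point-transitive collineation groups: abelian ones are semiregular; if the
number of points is squarefree, nilpotent ones are cyclic.
-/

namespace Pool.Agent.H12.ST

open Finset MulAction Configuration

section

variable {P L : Type} [Membership P L] [Finite P] [Finite L] [ProjectivePlane P L]
  {G : Type} [Group G] [Finite G] [MulAction G P] [MulAction G L]

set_option linter.unusedSectionVars false

lemma stab_card [MulAction.IsPretransitive G P]
    (hmem : ∀ (g : G) (p : P) (l : L), g • p ∈ g • l ↔ p ∈ l) (M : Subgroup G) [M.Normal]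
    (p : P) (l : L) : Nat.card (stabilizer M p) = Nat.card (stabilizer M l) := by
  classical
  have := Fintype.ofFinite P
  have := Fintype.ofFinite L
  have hL : MulAction.IsPretransitive G L := trans_lines (P := P) G hmem
  have h1 : Nat.card (orbit M p) = Nat.card (orbit M l) := by
    rw [← card_fib M p, ← card_fib M l]
    exact fib_eq M (inc_sys P L) (fun g p l => inc_inv hmem g p l) p l
  have h2 : Nat.card (orbit M p) * Nat.card (stabilizer M p) = Nat.card M := by
    rw [← Nat.card_prod]
    exact Nat.card_congr (MulAction.orbitProdStabilizerEquivGroup M p)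
  have h3 : Nat.card (orbit M l) * Nat.card (stabilizer M l) = Nat.card M := by
    rw [← Nat.card_prod]
    exact Nat.card_congr (MulAction.orbitProdStabilizerEquivGroup M l)
  rw [← h3, h1] at h2
  have : Nonempty (orbit M l) := ⟨⟨l, mem_orbit_self l⟩⟩
  exact Nat.eq_of_mul_eq_mul_left Nat.card_pos h2

/-- An abelian normal subgroup of a point-transitive group of collineations acts freely. -/
theorem semireg [FaithfulSMul G P] [MulAction.IsPretransitive G P]
    (hmem : ∀ (g : G) (p : P) (l : L), g • p ∈ g • l ↔ p ∈ l) (M : Subgroup G) [M.Normal]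
    (hM : ∀ a ∈ M, ∀ b ∈ M, a * b = b * a) (p : P) : stabilizer M p = ⊥ := by
  classical
  -- step 1
  have h1 : ∀ (p : P) (l : L), p ∈ l → stabilizer M p = stabilizer M l := by
    intro p l hpl
    have hle : stabilizer M p ≤ stabilizer M l := by
      by_contra hcon
      obtain ⟨g, hg, hgl⟩ := SetLike.not_le_iff_exists.1 hcon
      rw [mem_stabilizer_iff] at hg hgl
      have hne : l ≠ g • l := fun h => hgl h.symm
      have hpg : p ∈ g • l := by
        have := (hmem (g : G) p l).2 hpl
        have h2 : (g : G) • p = p := hg
        rw [h2] at this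
        exact this
      have hle2 : stabilizer M l ≤ stabilizer M p := by
        intro m hm
        rw [mem_stabilizer_iff] at hm ⊢
        obtain ⟨z, hz, hu⟩ := HasPoints.existsUnique_point P L l (g • l) hne
        have e1 : p = z := hu p ⟨hpl, hpg⟩
        have e2 : m • p = z := by
          refine hu (m • p) ⟨?_, ?_⟩
          · have := (hmem (m : G) p l).2 hpl
            have h2 : (m : G) • l = l := hm
            rw [h2] at this
            exact this
          · have h3 : m • (g • l) = g • l := by
              have h4 : m * g = g * m := Subtype.ext (hM m m.2 g g.2)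
              rw [← mul_smul, h4, mul_smul, hm]
            have := (hmem (m : G) p (g • l)).2 hpg
            have h2 : (m : G) • (g • l) = g • l := h3
            rw [h2] at this
            exact this
        rw [e2, ← e1]
      have heq : stabilizer M l = stabilizer M p := by
        refine Subgroup.eq_of_le_of_card_ge hle2 ?_
        exact (stab_card hmem M p l).le
      rw [← mem_stabilizer_iff, ← heq] at hg
      exact hgl (mem_stabilizer_iff.1 hg)
    refine Subgroup.eq_of_le_of_card_ge hle ?_
    exact (stab_card hmem M p l).ge
  have h2 : ∀ p p' : P, stabilizer M p = stabilizer M p' := by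
    intro p p'
    by_cases h : p = p'
    · rw [h]
    · obtain ⟨l, hl, _⟩ := HasLines.existsUnique_line P L p p' h
      rw [h1 p l hl.1, h1 p' l hl.2]
  rw [eq_bot_iff]
  intro m hm
  rw [Subgroup.mem_bot]
  apply Subtype.ext
  apply FaithfulSMul.eq_of_smul_eq_smul (α := P)
  intro x
  have h3 : m ∈ stabilizer M x := by rw [h2 x p]; exact hm
  rw [mem_stabilizer_iff] at h3
  change m • x = (1 : G) • x
  rw [h3, one_smul]

/-- A group acting freely on the points has order dividing the number of points. -/
lemma card_of_semireg (M : Subgroup G) {X : Type} [MulAction G X] (x : X)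
    (h : stabilizer M x = ⊥) : Nat.card (orbit M x) = Nat.card M := by
  have h2 : Nat.card (orbit M x) * Nat.card (stabilizer M x) = Nat.card M := by
    rw [← Nat.card_prod]
    exact Nat.card_congr (MulAction.orbitProdStabilizerEquivGroup M x)
  rw [h] at h2
  simpa using h2

lemma card_orbit_dvd [MulAction.IsPretransitive G P] (M : Subgroup G) [M.Normal] (x : P) :
    Nat.card (orbit M x) ∣ Nat.card P := by
  rw [card_mul M x, card_fib M x]
  exact Dvd.intro _ rfl

/-- Normal `r`-subgroups are abelian if the number of points is squarefree. -/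
theorem pgroup_comm [FaithfulSMul G P] [MulAction.IsPretransitive G P]
    (hsq : Squarefree (Nat.card P)) (Q : Subgroup G) [Q.Normal] {r : ℕ} (hr : r.Prime)
    (hQ : IsPGroup r Q) : ∀ a ∈ Q, ∀ b ∈ Q, a * b = b * a := by
  classical
  have : Fact r.Prime := ⟨hr⟩
  have hkey : ∀ x : P, ∀ a b : Q, a * b * a⁻¹ * b⁻¹ ∈ stabilizer Q x := by
    intro x a b
    obtain ⟨c, hc⟩ := hQ.card_orbit x
    have hd := card_orbit_dvd Q x
    rw [hc] at hd
    have hc1 : c ≤ 1 := by
      by_contra hcon
      push Not at hcon
      have h1 : r * r ∣ Nat.card P := by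
        have : r ^ 2 ∣ r ^ c := pow_dvd_pow r hcon
        rw [sq] at this
        exact this.trans hd
      exact hr.one_lt.ne' (Nat.isUnit_iff.1 (hsq r h1))
    have hidx : (stabilizer Q x).index = r ^ c := by
      have h2 : Nat.card (orbit Q x) = (stabilizer Q x).index := by
        rw [Subgroup.index]
        exact Nat.card_congr (MulAction.orbitEquivQuotientStabilizer Q x)
      rw [← h2, hc]
    interval_cases c
    · rw [pow_zero, Subgroup.index_eq_one] at hidx
      rw [hidx]; trivial
    · rw [pow_one] at hidx
      have hcard : (Nat.card Q).minFac = r := by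
        obtain ⟨k, hk⟩ := hQ.exists_card_eq
        have hk0 : k ≠ 0 := by
          rintro rfl
          have h3 := Subgroup.index_dvd_card (stabilizer Q x)
          rw [hidx, hk, pow_zero] at h3
          exact hr.one_lt.ne' (Nat.dvd_one.1 h3)
        rw [hk, hr.pow_minFac hk0]
      have hnorm : (stabilizer Q x).Normal :=
        Subgroup.normal_of_index_eq_minFac_card (by rw [hidx, hcard])
      have hcyc : IsCyclic (Q ⧸ stabilizer Q x) := by
        apply isCyclic_of_prime_card (p := r)
        exact hidx
      rw [← QuotientGroup.eq_one_iff]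
      have hcomm : ∀ u v : Q ⧸ stabilizer Q x, u * v = v * u := by
        intro u v
        obtain ⟨g, hg⟩ := hcyc.exists_generator
        obtain ⟨i, rfl⟩ := Subgroup.mem_zpowers_iff.1 (hg u)
        obtain ⟨j, rfl⟩ := Subgroup.mem_zpowers_iff.1 (hg v)
        rw [← zpow_add, ← zpow_add, add_comm]
      have := hcomm (a : Q ⧸ stabilizer Q x) (b : Q ⧸ stabilizer Q x)
      rw [QuotientGroup.mk_mul, QuotientGroup.mk_mul, QuotientGroup.mk_mul, QuotientGroup.mk_inv,
        QuotientGroup.mk_inv, this, mul_inv_cancel_right, mul_inv_cancel]
  intro a ha b hb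
  have h1 : a * b * a⁻¹ * b⁻¹ = 1 := by
    apply FaithfulSMul.eq_of_smul_eq_smul (α := P)
    intro x
    have := hkey x ⟨a, ha⟩ ⟨b, hb⟩
    rw [mem_stabilizer_iff] at this
    rw [one_smul]
    exact this
  have h2 : a * b * a⁻¹ = b := mul_inv_eq_one.1 h1
  exact mul_inv_eq_iff_eq_mul.1 h2

/-- Normal nilpotent subgroups are cyclic if the number of points is squarefree. -/
theorem nilp_cyclic [FaithfulSMul G P] [MulAction.IsPretransitive G P]
    (hmem : ∀ (g : G) (p : P) (l : L), g • p ∈ g • l ↔ p ∈ l)
    (hsq : Squarefree (Nat.card P)) (A : Subgroup G) [A.Normal] [Group.IsNilpotent A] :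
    IsCyclic A := by
  classical
  have hZ : IsZGroup A := by
    refine ⟨fun r hr S => ?_⟩
    have : Fact r.Prime := ⟨hr⟩
    have hSn : (S : Subgroup A).Normal := inferInstance
    have hSc : (S : Subgroup A).Characteristic := Sylow.characteristic_of_normal S hSn
    have hQn : ((S : Subgroup A).map A.subtype).Normal := ConjAct.normal_of_characteristic_of_normal
    have hQp : IsPGroup r ((S : Subgroup A).map A.subtype) := S.isPGroup'.map _
    have hcomm := pgroup_comm hsq ((S : Subgroup A).map A.subtype) hr hQp
    obtain ⟨x⟩ : Nonempty P := by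
      obtain ⟨p, _⟩ := (inferInstance : ProjectivePlane P L).exists_config
      exact ⟨p⟩
    have hst := semireg hmem ((S : Subgroup A).map A.subtype) hcomm x
    have hcard := card_of_semireg _ x hst
    have hdvd := card_orbit_dvd ((S : Subgroup A).map A.subtype) x
    rw [hcard] at hdvd
    have hsq2 : Squarefree (Nat.card ((S : Subgroup A).map A.subtype)) :=
      Squarefree.squarefree_of_dvd hdvd hsq
    obtain ⟨k, hk⟩ := hQp.exists_card_eq
    have hk1 : k ≤ 1 := by
      by_contra hcon
      push Not at hcon
      have h1 : r * r ∣ Nat.card ((S : Subgroup A).map A.subtype) := by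
        rw [hk, ← sq]; exact pow_dvd_pow r hcon
      exact hr.one_lt.ne' (Nat.isUnit_iff.1 (hsq2 r h1))
    have hcyc : IsCyclic ((S : Subgroup A).map A.subtype) := by
      apply isCyclic_of_card_dvd_prime (p := r)
      rw [hk]
      exact (pow_dvd_pow r hk1).trans (by simp)
    exact isCyclic_of_surjective _
      ((S : Subgroup A).equivMapOfInjective A.subtype A.subtype_injective).symm.surjective
  infer_instance

end

end Pool.Agent.H12.ST
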