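import Mathlib

set_option autoImplicit false

/-!
Counting fixed points in a group of prime exponent.

PAPER PROOF of `even_exponent`. `V` is a `q`-group (every element has order `1` or `q`), so `|V|`
is odd. All orbits on `R` have size `q^c`; let `e = |R|`, `e' = e/q^c` the number of orbits (odd).
Burnside (`MulAction.sum_card_fixedBy_eq_card_orbits_mul_card_group`): `Σ_v fix(v) = |V| e'`.
So `Σ_{v ≠ 1} moved(v) = Σ_v (e - fix(v)) = |V| e - |V| e' = |V| e' (q^c - 1)`.
Write `moved(v) = 2 h(v)`. `h(v^i) = h(v)` for `1 ≤ i < q` (`v^i` and `v` generate the same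
subgroup), so grouping the `v ≠ 1` by the subgroup `⟨v⟩` (which has exactly `q - 1` generators)
`Σ_{v≠1} h(v) = (q-1) X`. Hence `2 (q-1) X = |V| e' (q^c-1) = |V| e' (q-1) (1+q+...+q^{c-1})`,
`2 X = |V| e' (1+q+...+q^{c-1})`, and as `|V|`, `e'`, `q` are odd, `c` is even.
-/

namespace Pool.Agent.H12.ST

theorem even_exponent {V R : Type} [Group V] [Finite V] [Finite R] [MulAction V R] {q c : ℕ}
    (hq : q.Prime) (hq2 : 2 < q) (hexp : ∀ v : V, v ^ q = 1) (hodd : Odd (Nat.card R))
    (horb : ∀ r : R, Nat.card (MulAction.orbit V r) = q ^ c)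
    (hmov : ∀ v : V, v ≠ 1 → Even (Nat.card {r : R // v • r ≠ r})) : Even c := by
  classical
  have := Fintype.ofFinite V
  have := Fintype.ofFinite R
  have hqo : Odd q := hq.odd_of_ne_two (by omega)
  have : Fact q.Prime := ⟨hq⟩
  -- the number of the moved points
  set f : V → ℕ := fun v => Nat.card {r : R // v • r ≠ r} with hf
  have hfix : ∀ v, Fintype.card (MulAction.fixedBy R v) + f v = Fintype.card R := fun v => by
    simp only [hf]
    rw [Nat.card_eq_fintype_card, Fintype.card_subtype, Fintype.card_subtype]
    simp only [MulAction.mem_fixedBy]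
    rw [Finset.card_filter_add_card_filter_not, Finset.card_univ]
  have : Fintype (Quotient (MulAction.orbitRel V R)) := Fintype.ofFinite _
  set e := Fintype.card (Quotient (MulAction.orbitRel V R)) with he
  have hB : ∑ v : V, Fintype.card (MulAction.fixedBy R v) = e * Fintype.card V :=
    MulAction.sum_card_fixedBy_eq_card_orbits_mul_card_group V R
  have hR : Fintype.card R = e * q ^ c := by
    rw [← Nat.card_eq_fintype_card, Nat.card_congr (MulAction.selfEquivSigmaOrbits V R), Nat.card_sigma]
    rw [Finset.sum_congr rfl fun ω _ => horb ω.out, Finset.sum_const, Finset.card_univ, smul_eq_mul]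
  have heo : Odd e := by
    rw [Nat.card_eq_fintype_card, hR, Nat.odd_mul] at hodd
    exact hodd.1
  have hVo : Odd (Fintype.card V) := by
    obtain ⟨k, hk⟩ := (IsPGroup.iff_card (p := q) (G := V)).1 fun v => ⟨1, by rw [pow_one]; exact hexp v⟩
    rw [← Nat.card_eq_fintype_card, hk]
    exact hqo.pow
  -- the total number
  have hsum : ∑ v : V, f v + e * Fintype.card V = Fintype.card V * (e * q ^ c) := by
    rw [← hB, ← Finset.sum_add_distrib, Finset.sum_congr rfl fun v _ => (add_comm _ _).trans (hfix v), Finset.sum_const, Finset.card_univ, smul_eq_mul, hR]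
  -- divisibility
  have hf1 : f 1 = 0 := by
    simp [hf]
  have hfconst : ∀ v w : V, Subgroup.zpowers v = Subgroup.zpowers w → f v = f w := fun v w h => by
    have h1 : ∀ r : R, v • r = r ↔ w • r = r := fun r => by
      rw [← MulAction.mem_stabilizer_iff, ← MulAction.mem_stabilizer_iff, ← Subgroup.zpowers_le, ← Subgroup.zpowers_le, h]
    simp only [hf, h1, Ne]
  have hdiv : 2 * (q - 1) ∣ ∑ v : V, f v := by
    rw [← Finset.sum_fiberwise_of_maps_to (s := Finset.univ) (t := Finset.univ) (g := fun v : V => Subgroup.zpowers v) (fun _ _ => Finset.mem_univ _)]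
    refine Finset.dvd_sum fun H _ => ?_
    by_cases hH : ∃ v : V, v ≠ 1 ∧ Subgroup.zpowers v = H
    · obtain ⟨v, hv, rfl⟩ := hH
      have hcard : (Finset.univ.filter fun w : V => Subgroup.zpowers w = Subgroup.zpowers v).card = q - 1 := by
        have h1 : (Finset.univ.filter fun w : V => Subgroup.zpowers w = Subgroup.zpowers v) = (Finset.univ.filter fun w : V => w ∈ Subgroup.zpowers v).erase 1 := by
          ext w
          simp only [Finset.mem_filter, Finset.mem_univ, true_and, Finset.mem_erase]
          constructor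
          · intro h
            refine ⟨fun h1 => ?_, h ▸ Subgroup.mem_zpowers w⟩
            rw [h1, Subgroup.zpowers_one_eq_bot] at h
            exact hv (Subgroup.zpowers_eq_bot.1 h.symm)
          · rintro ⟨h1, h2⟩
            refine le_antisymm (Subgroup.zpowers_le.2 h2) ?_
            have h3 : Nat.card (Subgroup.zpowers w) = Nat.card (Subgroup.zpowers v) := by
              rw [Nat.card_zpowers, Nat.card_zpowers, orderOf_eq_prime (hexp v) hv, orderOf_eq_prime (hexp w) h1]
            exact (Subgroup.eq_of_le_of_card_ge (Subgroup.zpowers_le.2 h2) h3.ge).ge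
        rw [h1, Finset.card_erase_of_mem (by simp)]
        congr 1
        rw [← Fintype.card_subtype, ← Nat.card_eq_fintype_card]
        exact (Nat.card_zpowers v).trans (orderOf_eq_prime (hexp v) hv)
      rw [Finset.sum_congr rfl fun w hw => hfconst w v (Finset.mem_filter.1 hw).2, Finset.sum_const, hcard, smul_eq_mul, mul_comm 2]
      exact Nat.mul_dvd_mul_left _ (even_iff_two_dvd.1 (hmov v hv))
    · push Not at hH
      rw [Finset.sum_eq_zero]
      · exact dvd_zero _
      · intro w hw
        by_cases h1 : w = 1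
        · rw [h1, hf1]
        · exact absurd (Finset.mem_filter.1 hw).2 (hH w h1)
  obtain ⟨X, hX⟩ := hdiv
  obtain ⟨x, rfl⟩ : ∃ x, q = x + 1 := ⟨q - 1, by omega⟩
  set G := ∑ i ∈ Finset.range c, (x + 1) ^ i with hG
  have hgeom : G * x + 1 = (x + 1) ^ c := geom_sum_mul_add x c
  have hx : 0 < x := by omega
  rw [hX, ← hgeom, Nat.add_sub_cancel] at hsum
  have h2 : x * (2 * X) = x * (Fintype.card V * e * G) := by
    have h3 : 2 * x * X + e * Fintype.card V = (x * (Fintype.card V * e * G)) + e * Fintype.card V := by
      rw [hsum]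
      ring
    have h4 := Nat.add_right_cancel h3
    rw [← h4]
    ring
  have h5 : 2 * X = Fintype.card V * e * G := Nat.eq_of_mul_eq_mul_left hx h2
  have h6 : Even G := by
    have h7 : Even (Fintype.card V * e * G) := h5 ▸ even_two_mul X
    rcases Nat.even_mul.1 h7 with h | h
    · exact absurd h (Nat.not_even_iff_odd.2 (hVo.mul heo))
    · exact h
  rw [hG, Finset.even_sum_iff_even_card_odd] at h6
  have h8 : (Finset.range c).filter (fun i => Odd ((x + 1) ^ i)) = Finset.range c :=
    Finset.filter_true_of_mem fun i _ => hqo.pow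
  rwa [h8, Finset.card_range] at h6

end Pool.Agent.H12.ST
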