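import Pool.Agent.H12.ST.Abl

set_option autoImplicit false

/-!
Self-centralizing cyclic normal subgroups, and the labelling of a cyclic plane.
-/

namespace Pool.Agent.H12.ST

open Finset MulAction Configuration

section

variable {P L : Type} [Membership P L] [Finite P] [Finite L] [ProjectivePlane P L]
  {G : Type} [Group G] [Finite G] [MulAction G P] [MulAction G L]

set_option linter.unusedSectionVars false

/-- The plane is cyclic (circulant incidence matrix). -/
def IsCyc (P L : Type) [Membership P L] (n : ℕ) : Prop :=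
  ∃ (f : P ≃ ZMod (n ^ 2 + n + 1)) (g : L ≃ ZMod (n ^ 2 + n + 1))
    (D : Set (ZMod (n ^ 2 + n + 1))), ∀ (p : P) (l : L), p ∈ l ↔ f p - g l ∈ D

/-- A nilpotency criterion. -/
lemma nilp_of {C A : Subgroup G} [C.Normal]
    (hcen : A ≤ Subgroup.centralizer (C : Set G))
    (hcomm : ∀ a ∈ A, ∀ b ∈ A, a * b * a⁻¹ * b⁻¹ ∈ C) : Group.IsNilpotent A := by
  let D : Subgroup A := C.subgroupOf A
  have hD : D.Normal := inferInstance
  let _ : CommGroup (A ⧸ D) :=
    { (inferInstance : Group (A ⧸ D)) with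
      mul_comm := by
        intro u v
        obtain ⟨a, rfl⟩ := QuotientGroup.mk_surjective u
        obtain ⟨b, rfl⟩ := QuotientGroup.mk_surjective v
        rw [← QuotientGroup.mk_mul, ← QuotientGroup.mk_mul, QuotientGroup.eq]
        rw [Subgroup.mem_subgroupOf]
        have h1 := hcomm (b⁻¹ : A) (A.inv_mem b.2) (a⁻¹ : A) (A.inv_mem a.2)
        have h2 : (((a * b)⁻¹ * (b * a) : A) : G) =
            ((b⁻¹ : A) : G) * ((a⁻¹ : A) : G) * ((b⁻¹ : A) : G)⁻¹ * ((a⁻¹ : A) : G)⁻¹ := by
          push_cast; group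
        rw [h2]; exact h1 }
  refine Subgroup.isNilpotent_of_ker_le_center (QuotientGroup.mk' D) ?_
  rw [QuotientGroup.ker_mk']
  intro x hx
  rw [Subgroup.mem_center_iff]
  intro y
  have h1 := hcen y.2
  rw [Subgroup.mem_centralizer_iff] at h1
  exact Subtype.ext (h1 x (Subgroup.mem_subgroupOf.1 hx)).symm

/-- For a soluble point-transitive group on a plane with a squarefree number of points there is a
self-centralizing cyclic normal subgroup. -/
theorem self_cent [FaithfulSMul G P] [MulAction.IsPretransitive G P] [Group.IsSolvable G]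
    (hmem : ∀ (g : G) (p : P) (l : L), g • p ∈ g • l ↔ p ∈ l)
    (hsq : Squarefree (Nat.card P)) :
    ∃ C : Subgroup G, C.Normal ∧ IsCyclic C ∧ Subgroup.centralizer (C : Set G) = C := by
  classical
  obtain ⟨C, ⟨hCn, hCc⟩, hmax⟩ := (Set.toFinite {C : Subgroup G | C.Normal ∧ IsCyclic C}).exists_maximal
    ⟨⊥, ⟨inferInstance, inferInstance⟩⟩
  refine ⟨C, hCn, hCc, ?_⟩
  have hcomC : ∀ a ∈ C, ∀ b ∈ C, a * b = b * a := by
    intro a ha b hb
    obtain ⟨g, hg⟩ := hCc.exists_generator
    obtain ⟨i, hi⟩ := Subgroup.mem_zpowers_iff.1 (hg ⟨a, ha⟩)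
    obtain ⟨j, hj⟩ := Subgroup.mem_zpowers_iff.1 (hg ⟨b, hb⟩)
    have h1 : (⟨a, ha⟩ : C) * ⟨b, hb⟩ = ⟨b, hb⟩ * ⟨a, ha⟩ := by
      rw [← hi, ← hj, ← zpow_add, ← zpow_add, add_comm]
    exact congrArg Subtype.val h1
  have hCZ : C ≤ Subgroup.centralizer (C : Set G) := by
    intro x hx
    rw [Subgroup.mem_centralizer_iff]
    intro y hy
    exact hcomC y hy x hx
  have hZn : (Subgroup.centralizer (C : Set G)).Normal := inferInstance
  by_contra hne
  obtain ⟨r, hr, A, hAn, hCA, hCneA, hAZ, hAc, -⟩ :=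
    exists_between C (Subgroup.centralizer (C : Set G)) hCZ (fun h => hne h.symm)
  have hnil : Group.IsNilpotent A := nilp_of hAZ hAc
  have hcyc : IsCyclic A := nilp_cyclic hmem hsq A
  exact hCneA (le_antisymm hCA (hmax ⟨hAn, hcyc⟩ hCA))

lemma card_dvd_group [MulAction.IsPretransitive G P] (x : P) : Nat.card P ∣ Nat.card G := by
  have h1 : Nat.card (orbit G x) * Nat.card (stabilizer G x) = Nat.card G := by
    rw [← Nat.card_prod]
    exact Nat.card_congr (MulAction.orbitProdStabilizerEquivGroup G x)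
  have h2 : Nat.card (orbit G x) = Nat.card P := by
    rw [MulAction.orbit_eq_univ G x]
    exact Nat.card_congr (Equiv.Set.univ P)
  rw [← h1, h2]
  exact Dvd.intro _ rfl

/-- The number `m` of orbits of the cyclic normal subgroup divides `gcd(N, φ(N))`. -/
theorem cyc_card [MulAction.IsPretransitive G P]
    (C : Subgroup G) [C.Normal] (hC : IsCyclic C) (hcc : Subgroup.centralizer (C : Set G) = C)
    (x : P) (hst : stabilizer C x = ⊥) :
    ∃ m : ℕ, Nat.card P = Nat.card C * m ∧
      m ∣ Nat.gcd (Nat.card P) (Nat.totient (Nat.card P)) := by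
  classical
  have h1 : Nat.card C ∣ Nat.card P := by
    rw [← card_of_semireg C x hst]
    exact card_orbit_dvd C x
  obtain ⟨m, hm⟩ := h1
  refine ⟨m, hm, ?_⟩
  have hker : (MulAut.conjNormal (H := C) : G →* MulAut C).ker ≤ C := by
    intro g hg
    rw [← hcc, Subgroup.mem_centralizer_iff]
    intro c hc
    rw [MonoidHom.mem_ker] at hg
    have h2 := congrArg (fun φ : MulAut C => ((φ ⟨c, hc⟩ : C) : G)) hg
    simp only [MulAut.conjNormal_apply, MulAut.one_apply] at h2
    rw [mul_inv_eq_iff_eq_mul] at h2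
    exact h2.symm
  have h2 : Nat.card G ∣ Nat.card C * Nat.totient (Nat.card C) := by
    have h3 : Nat.card G = Nat.card (MulAut.conjNormal (H := C) : G →* MulAut C).ker *
        Nat.card (MulAut.conjNormal (H := C) : G →* MulAut C).range := by
      rw [← Subgroup.index_ker, Subgroup.card_mul_index]
    rw [h3]
    refine Nat.mul_dvd_mul (Subgroup.card_dvd_of_le hker) ?_
    rw [← IsCyclic.card_mulAut C]
    exact Subgroup.card_subgroup_dvd_card _
  have h4 : Nat.card P ∣ Nat.card C * Nat.totient (Nat.card C) := (card_dvd_group x).trans h2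
  have hCpos : 0 < Nat.card C := Nat.card_pos
  rw [hm] at h4
  have h5 : m ∣ Nat.totient (Nat.card C) := Nat.dvd_of_mul_dvd_mul_left hCpos h4
  have h6 : Nat.totient (Nat.card C) ∣ Nat.totient (Nat.card P) :=
    Nat.totient_dvd_of_dvd (Dvd.intro _ hm.symm)
  exact Nat.dvd_gcd (Dvd.intro_left _ hm.symm) (h5.trans h6)

/-- The incidence matrix is a `k × k` array of circulant matrices of size `m`. -/
def IsBlockCyc (P L : Type) [Membership P L] (k m : ℕ) : Prop :=
  ∃ (f : P ≃ Fin k × ZMod m) (g : L ≃ Fin k × ZMod m) (D : Fin k → Fin k → Set (ZMod m)),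
    ∀ (p : P) (l : L), p ∈ l ↔ (f p).2 - (g l).2 ∈ D (f p).1 (g l).1

/-- Labelling by a semiregular cyclic group. -/
theorem label_block (hmem : ∀ (g : G) (p : P) (l : L), g • p ∈ g • l ↔ p ∈ l)
    (C : Subgroup G) (hC : IsCyclic C) {k m : ℕ} (hcard : Nat.card C = m)
    (hP : Nat.card P = k * m) (hL : Nat.card L = k * m)
    (hx : ∀ x : P, stabilizer C x = ⊥) (hy : ∀ y : L, stabilizer C y = ⊥) :
    IsBlockCyc P L k m := by
  classical
  have hm : 0 < m := by rw [← hcard]; exact Nat.card_pos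
  have : NeZero m := ⟨hm.ne'⟩
  have e : Multiplicative (ZMod m) ≃* C := by
    rw [← hcard]; exact zmodCyclicMulEquiv hC
  have hex : ∀ {X : Type} [MulAction G X] [Finite X] (_ : Nat.card X = k * m)
      (_ : ∀ z : X, stabilizer C z = ⊥), ∃ rep : Fin k → X,
      Function.Bijective (fun u : Fin k × ZMod m => e (Multiplicative.ofAdd u.2) • rep u.1) := by
    intro X _ _ hX hz
    have := Fintype.ofFinite X
    have := Fintype.ofFinite (orbitRel.Quotient C X)
    have hk : Fintype.card (orbitRel.Quotient C X) = k := by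
      have h1 := Nat.card_congr (MulAction.selfEquivOrbitsQuotientProd (G := C) (X := X) hz)
      rw [hX, Nat.card_prod, hcard] at h1
      have h2 := Nat.eq_of_mul_eq_mul_right hm h1
      rw [h2, ← Nat.card_eq_fintype_card]
    have E : Fin k ≃ orbitRel.Quotient C X := (finCongr hk.symm).trans
      (Fintype.equivFin (orbitRel.Quotient C X)).symm
    refine ⟨fun i => Quotient.out (E i), ?_⟩
    rw [Fintype.bijective_iff_injective_and_card]
    refine ⟨?_, ?_⟩
    · rintro ⟨i, a⟩ ⟨j, b⟩ hab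
      simp only at hab
      have hout : ∀ o : orbitRel.Quotient C X, (Quotient.mk'' (Quotient.out o) : orbitRel.Quotient C X) = o :=
        fun o => Quotient.out_eq _
      have hq : ∀ (c : C) (x : X), (Quotient.mk'' (c • x) : orbitRel.Quotient C X) = Quotient.mk'' x := by
        intro c x
        rw [Quotient.eq'']
        exact ⟨c, rfl⟩
      have h1 : E i = E j := by
        rw [← hout (E i), ← hout (E j), ← hq (e (Multiplicative.ofAdd a)), hab, hq]
      have h2 : i = j := E.injective h1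
      subst h2
      have h1 : (e (Multiplicative.ofAdd b))⁻¹ * e (Multiplicative.ofAdd a) ∈
          stabilizer C (Quotient.out (E i)) := by
        rw [mem_stabilizer_iff, mul_smul, hab, inv_smul_smul]
      rw [hz, Subgroup.mem_bot, inv_mul_eq_one] at h1
      have := e.injective h1
      rw [(Multiplicative.ofAdd.injective this)]
    · rw [Fintype.card_prod, Fintype.card_fin, ZMod.card, ← Nat.card_eq_fintype_card, hX]
  obtain ⟨x, hbx⟩ := hex hP hx
  obtain ⟨y, hby⟩ := hex hL hy
  let f0 : Fin k × ZMod m ≃ P := Equiv.ofBijective _ hbx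
  let g0 : Fin k × ZMod m ≃ L := Equiv.ofBijective _ hby
  refine ⟨f0.symm, g0.symm, fun i j => {t | e (Multiplicative.ofAdd t) • x i ∈ y j}, ?_⟩
  intro p l
  obtain ⟨⟨i, a⟩, rfl⟩ := f0.surjective p
  obtain ⟨⟨j, b⟩, rfl⟩ := g0.surjective l
  rw [Equiv.symm_apply_apply, Equiv.symm_apply_apply, Set.mem_ofPred_eq]
  change e (Multiplicative.ofAdd a) • x i ∈ e (Multiplicative.ofAdd b) • y j ↔
    e (Multiplicative.ofAdd (a - b)) • x i ∈ y j
  have h1 : e (Multiplicative.ofAdd (a - b)) =
      (e (Multiplicative.ofAdd b))⁻¹ * e (Multiplicative.ofAdd a) := by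
    rw [← map_inv, ← map_mul]
    congr 1
    rw [sub_eq_neg_add]; rfl
  rw [h1]
  have h2 := hmem ((e (Multiplicative.ofAdd b) : C) : G)
    (((e (Multiplicative.ofAdd b))⁻¹ * e (Multiplicative.ofAdd a)) • x i) (y j)
  rw [← h2]
  have h3 : ((e (Multiplicative.ofAdd b) : C) : G) •
      (((e (Multiplicative.ofAdd b))⁻¹ * e (Multiplicative.ofAdd a)) • x i) =
      e (Multiplicative.ofAdd a) • x i := by
    change (e (Multiplicative.ofAdd b)) • (((e (Multiplicative.ofAdd b))⁻¹ *
      e (Multiplicative.ofAdd a)) • x i) = _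
    rw [mul_smul, smul_inv_smul]
  rw [h3]
  rfl

lemma isCyc_of_block {n : ℕ} (h : IsBlockCyc P L 1 (n ^ 2 + n + 1)) : IsCyc P L n := by
  obtain ⟨f, g, D, h⟩ := h
  let u : Fin 1 × ZMod (n ^ 2 + n + 1) ≃ ZMod (n ^ 2 + n + 1) := Equiv.uniqueProd _ _
  refine ⟨f.trans u, g.trans u, D 0 0, fun p l => ?_⟩
  rw [h p l]
  have h1 : (f p).1 = 0 := Subsingleton.elim _ _
  have h2 : (g l).1 = 0 := Subsingleton.elim _ _
  rw [h1, h2]
  rfl

end

end Pool.Agent.H12.ST
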