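import Mathlib

set_option autoImplicit false

/-!
Parity of the exponent of a self-conjugate prime in a norm `x * conj x`, `x` in `ℤ[ζ_q]`.
-/

namespace Pool.Agent.H12.ST

open Polynomial ComplexConjugate

/-- Values at `ζ` of integer polynomials. -/
noncomputable def Zz (ζ : ℂ) : Subring ℂ := (Polynomial.aeval (R := ℤ) ζ).toRingHom.range

lemma mem_Zz {ζ x : ℂ} : x ∈ Zz ζ ↔ ∃ f : ℤ[X], Polynomial.aeval ζ f = x := by
  simp [Zz, RingHom.mem_range]

lemma self_mem_Zz (ζ : ℂ) : ζ ∈ Zz ζ := mem_Zz.2 ⟨X, by simp⟩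

/-- `f(X)^p = f(X^p) + p h` over the integers. -/
lemma frob_poly (p : ℕ) (hp : p.Prime) (f : ℤ[X]) :
    ∃ h : ℤ[X], f ^ p = Polynomial.expand ℤ p f + (p : ℤ[X]) * h := by
  have : Fact p.Prime := ⟨hp⟩
  have h1 : (f ^ p - Polynomial.expand ℤ p f).map (Int.castRingHom (ZMod p)) = 0 := by
    rw [Polynomial.map_sub, Polynomial.map_pow, Polynomial.map_expand, ZMod.expand_card, sub_self]
  have h2 : (C (p : ℤ) : ℤ[X]) ∣ f ^ p - Polynomial.expand ℤ p f := by
    rw [Polynomial.C_dvd_iff_dvd_coeff]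
    intro i
    have := congrArg (fun g => Polynomial.coeff g i) h1
    simp only [Polynomial.coeff_map, Polynomial.coeff_zero] at this
    rw [eq_intCast] at this
    exact (ZMod.intCast_zmod_eq_zero_iff_dvd _ p).1 this
  obtain ⟨h, hh⟩ := h2
  refine ⟨h, ?_⟩
  have : (p : ℤ[X]) = C (p : ℤ) := by simp
  rw [this, ← hh]; ring

/-- Iterated Frobenius. -/
lemma frob_iter (p : ℕ) (hp : p.Prime) (f : ℤ[X]) (j : ℕ) :
    ∃ h : ℤ[X], f ^ (p ^ j) = Polynomial.expand ℤ (p ^ j) f + (p : ℤ[X]) * h := by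
  induction j with
  | zero => exact ⟨0, by simp⟩
  | succ j ih =>
    obtain ⟨h, hh⟩ := ih
    obtain ⟨h1, hh1⟩ := frob_poly p hp (f ^ (p ^ j))
    refine ⟨Polynomial.expand ℤ p h + h1, ?_⟩
    rw [pow_succ, pow_mul, hh1]
    have h2 : Polynomial.expand ℤ p (f ^ (p ^ j)) =
        Polynomial.expand ℤ (p ^ j * p) f + (p : ℤ[X]) * Polynomial.expand ℤ p h := by
      rw [hh, map_add, map_mul, Polynomial.expand_expand, mul_comm (p ^ j) p]
      simp
    rw [h2]; ring

lemma conj_eq_inv {ζ : ℂ} {q : ℕ} (hq : 0 < q) (hζ : ζ ^ q = 1) : conj ζ = ζ⁻¹ := by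
  have : ‖ζ‖ = 1 := Complex.norm_eq_one_of_pow_eq_one hζ hq.ne'
  exact (Complex.inv_eq_conj this).symm

/-- conjugation on `ℤ[ζ]` is the `p^j`-Frobenius mod `p` if `p^j ≡ -1`. -/
lemma pow_eq_conj {ζ : ℂ} {q p j : ℕ} (hq : 0 < q) (hζ : ζ ^ q = 1) (hp : p.Prime)
    (hj : q ∣ p ^ j + 1) {x : ℂ} (hx : x ∈ Zz ζ) :
    ∃ y ∈ Zz ζ, x ^ (p ^ j) = conj x + p * y := by
  obtain ⟨f, rfl⟩ := mem_Zz.1 hx
  obtain ⟨h, hh⟩ := frob_iter p hp f j
  refine ⟨aeval ζ h, mem_Zz.2 ⟨h, rfl⟩, ?_⟩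
  rw [← map_pow, hh, map_add, map_mul]
  congr 1
  · rw [Polynomial.expand_aeval]
    have h1 : ζ ^ (p ^ j) = conj ζ := by
      rw [conj_eq_inv hq hζ]
      have h0 : ζ ≠ 0 := by
        rintro rfl
        rw [zero_pow hq.ne'] at hζ
        exact zero_ne_one hζ
      obtain ⟨k, hk⟩ := hj
      have : ζ ^ (p ^ j) * ζ = 1 := by
        rw [← pow_succ, hk, pow_mul, hζ, one_pow]
      exact eq_inv_of_mul_eq_one_left this
    rw [h1]
    have h2 : (conj (aeval ζ f) : ℂ) = aeval (conj ζ) f := by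
      rw [Polynomial.aeval_def, Polynomial.aeval_def, Polynomial.hom_eval₂]
      congr 1
      exact RingHom.ext_int _ _
    rw [h2]
  · simp

/-- descent step -/
lemma dvd_of_dvd_norm {ζ : ℂ} {q p j : ℕ} (hq : 2 < q) (hζ : ζ ^ q = 1) (hp : p.Prime)
    (hj : q ∣ p ^ j + 1) {x : ℂ} (hx : x ∈ Zz ζ) {w : ℂ} (hw : w ∈ Zz ζ)
    (h : x * conj x = p * w) : ∃ y ∈ Zz ζ, x = p * y := by
  have hq0 : 0 < q := by omega
  obtain ⟨y1, hy1, h1⟩ := pow_eq_conj hq0 hζ hp hj hx
  have h2 : x ^ (p ^ j + 1) = p * (w + x * y1) := by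
    rw [pow_succ, h1]; linear_combination h
  have h3 : ∃ y2 ∈ Zz ζ, x ^ (p ^ (2 * j)) = x + p * y2 := by
    obtain ⟨f, rfl⟩ := mem_Zz.1 hx
    obtain ⟨g, hg⟩ := frob_iter p hp f (2 * j)
    refine ⟨aeval ζ g, mem_Zz.2 ⟨g, rfl⟩, ?_⟩
    rw [← map_pow, hg, map_add, map_mul, Polynomial.expand_aeval]
    have : ζ ^ (p ^ (2 * j)) = ζ := by
      have hd : q ∣ p ^ (2 * j) - 1 := by
        have : p ^ (2 * j) - 1 = (p ^ j + 1) * (p ^ j - 1) := by
          rw [mul_comm 2 j, pow_mul, ← Nat.sq_sub_sq, one_pow]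
        rw [this]; exact Dvd.dvd.mul_right hj _
      obtain ⟨k, hk⟩ := hd
      have hpos : 1 ≤ p ^ (2 * j) := Nat.one_le_pow _ _ hp.pos
      have : p ^ (2 * j) = q * k + 1 := by omega
      rw [this, pow_succ, pow_mul, hζ, one_pow, one_mul]
    rw [this]; simp
  obtain ⟨y2, hy2, h3⟩ := h3
  have hjpos : 0 < j := by
    rcases Nat.eq_zero_or_pos j with rfl | h
    · have := Nat.le_of_dvd (by norm_num) hj
      simp at this; omega
    · exact h
  have hle : p ^ j + 1 ≤ p ^ (2 * j) := by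
    have h2p := hp.two_le
    have : 2 ≤ p ^ j := le_trans h2p (Nat.le_self_pow hjpos.ne' p)
    rw [mul_comm 2 j, pow_mul]
    nlinarith
  obtain ⟨m, hm⟩ := Nat.exists_eq_add_of_le hle
  refine ⟨(w + x * y1) * x ^ m - y2, ?_, ?_⟩
  · exact (Zz ζ).sub_mem ((Zz ζ).mul_mem ((Zz ζ).add_mem hw ((Zz ζ).mul_mem hx hy1))
      ((Zz ζ).pow_mem hx m)) hy2
  · have h4 : x ^ (p ^ (2 * j)) = p * (w + x * y1) * x ^ m := by
      rw [hm, pow_add, h2]
    linear_combination h4 - h3

/-- elements of `ℤ[ζ]` which are rational are integers: here for `p * y = m`. -/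
lemma int_of_mem {ζ : ℂ} {q : ℕ} (hq : 0 < q) (hζ : ζ ^ q = 1) {y : ℂ} (hy : y ∈ Zz ζ)
    {p m : ℕ} (hp : 0 < p) (h : (p : ℂ) * y = m) : p ∣ m := by
  have hint : IsIntegral ℤ y := by
    obtain ⟨f, rfl⟩ := mem_Zz.1 hy
    have hz : IsIntegral ℤ ζ := by
      refine ⟨X ^ q - 1, monic_X_pow_sub_C 1 hq.ne', ?_⟩
      simp [hζ]
    rw [Polynomial.aeval_eq_sum_range]
    refine IsIntegral.sum _ fun i _ => ?_
    exact (hz.pow i).smul _
  have hrat : y = algebraMap ℚ ℂ ((m : ℚ) / p) := by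
    have : (p : ℂ) ≠ 0 := by exact_mod_cast hp.ne'
    field_simp
    rw [map_div₀]
    simp only [map_natCast]
    field_simp
    linear_combination h
  rw [hrat] at hint
  have h1 : IsIntegral ℤ ((m : ℚ) / p) := by
    rwa [isIntegral_algebraMap_iff (algebraMap ℚ ℂ).injective] at hint
  obtain ⟨k, hk⟩ := IsIntegrallyClosed.isIntegral_iff.1 h1
  have hp' : (p : ℚ) ≠ 0 := by exact_mod_cast hp.ne'
  have h2 : (k : ℚ) * p = m := by
    have : (k : ℚ) = m / p := by simpa using hk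
    rw [this]; field_simp
  have h3 : (k : ℤ) * p = m := by exact_mod_cast h2
  exact_mod_cast (Dvd.intro_left k h3 : (p : ℤ) ∣ m)

/-- Main lemma of the file. -/
theorem even_val {ζ : ℂ} {q p j : ℕ} (hq : 2 < q) (hζ : ζ ^ q = 1) (hp : p.Prime)
    (hj : q ∣ p ^ j + 1) : ∀ (m : ℕ) (_ : 0 < m) (x : ℂ) (_ : x ∈ Zz ζ)
    (_ : x * conj x = m), Even (padicValNat p m) := by
  have : Fact p.Prime := ⟨hp⟩
  intro m
  induction m using Nat.strong_induction_on with
  | _ m ih =>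
    intro hm x hx h
    by_cases hpm : p ∣ m
    · obtain ⟨m1, rfl⟩ := hpm
      have hm1 : 0 < m1 := by
        rcases Nat.eq_zero_or_pos m1 with rfl | h
        · simp at hm
        · exact h
      have h' : x * conj x = p * (m1 : ℂ) := by rw [h]; push_cast; ring
      obtain ⟨y, hy, rfl⟩ := dvd_of_dvd_norm hq hζ hp hj hx
        (w := (m1 : ℂ)) (natCast_mem (Zz ζ) m1) h'
      have hp0 : (p : ℂ) ≠ 0 := by exact_mod_cast hp.ne_zero
      have h2 : (p : ℂ) * (y * conj y) = m1 := by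
        have : (p : ℂ) * (p * (y * conj y)) = p * m1 := by
          rw [← h']; simp; ring
        exact mul_left_cancel₀ hp0 this
      have hyc : y * conj y ∈ Zz ζ := by
        refine (Zz ζ).mul_mem hy ?_
        obtain ⟨f, rfl⟩ := mem_Zz.1 hy
        have h3 : (conj (aeval ζ f) : ℂ) = aeval (conj ζ) f := by
          rw [Polynomial.aeval_def, Polynomial.aeval_def, Polynomial.hom_eval₂]
          congr 1
          exact RingHom.ext_int _ _
        rw [h3, conj_eq_inv (by omega) hζ]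
        have h4 : ζ⁻¹ = ζ ^ (q - 1) := by
          have h0 : ζ ≠ 0 := by
            rintro rfl
            rw [zero_pow (by omega)] at hζ
            exact zero_ne_one hζ
          have h5 : ζ ^ (q - 1) * ζ = 1 := by
            rw [← pow_succ]
            have : q - 1 + 1 = q := by omega
            rw [this, hζ]
          exact (eq_inv_of_mul_eq_one_left h5).symm
        rw [h4]
        exact mem_Zz.2 ⟨Polynomial.expand ℤ (q - 1) f, by rw [Polynomial.expand_aeval]⟩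
      have hdvd := int_of_mem (by omega) hζ hyc hp.pos h2
      obtain ⟨m2, rfl⟩ := hdvd
      have hm2 : 0 < m2 := by
        rcases Nat.eq_zero_or_pos m2 with rfl | h
        · simp at hm1
        · exact h
      have h5 : y * conj y = m2 := by
        have : (p : ℂ) * (y * conj y) = p * m2 := by rw [h2]; push_cast; ring
        exact mul_left_cancel₀ hp0 this
      have h6 := ih m2 (by
        have := hp.two_le
        calc m2 < p * m2 := by nlinarith
          _ ≤ p * (p * m2) := by nlinarith) hm2 y hy h5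
      rw [padicValNat.mul hp.ne_zero (by positivity), padicValNat.mul hp.ne_zero hm2.ne',
        padicValNat_self]
      obtain ⟨k, hk⟩ := h6
      exact ⟨k + 1, by omega⟩
    · rw [padicValNat.eq_zero_of_not_dvd hpm]
      exact Even.zero

end Pool.Agent.H12.ST
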