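import Pool.Agent.H12.ST.Defs
import Pool.Agent.H12.ST.Num

set_option autoImplicit false

/-!
Parity of the number of moved rows of an automorphism of prime order.

PAPER PROOF of `even_moved`. Let `ζ = exp(2πi/q)`. Consider the action of `⟨(ρ,γ)⟩` (cyclic of
order dividing `q`); all `ρ`-orbits have size `1` or `q`. Let `I` be the set of `ρ`-orbits of size
`q` (moved rows), `J` the set of moved `γ`-orbits, with representatives `r_i`, `s_j`. Put
`β(i,j) = Σ_{k<q} B(r_i, γ^k s_j) ζ^k ∈ ℤ[ζ]`. Then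
`Σ_j β(i,j) conj β(i',j) = Σ_j Σ_{k,l} B(r_i,γ^k s_j) B(r_i',γ^l s_j) ζ^{k-l}`
`= Σ_m ζ^m Σ_j Σ_l B(ρ^{-m} r_i, γ^l s_j) B(r_i', γ^l s_j)`  (m = k - l in ZMod q)
`= Σ_m ζ^m Σ_{c moved} B(ρ^{-m} r_i, c) B(r_i', c)`
`= Σ_m ζ^m [ n·1(ρ^{-m} r_i = r_i') + f - Σ_{c fixed} B(r_i, c) B(r_i', c) ]`
(for `c` fixed by `γ`, `B(ρ^{-m} r_i, c) = B(r_i, γ^m c) = B(r_i,c)` does not depend on `m`)
`= n` if `i = i'` and `0` otherwise (`Σ_m ζ^m = 0`; `ρ^{-m} r_i = r_i` only for `m = 0` as `q` is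
prime and `r_i` is moved). So `β β* = n I`, hence `|I| ≤ |J|`; by symmetry (`Sys.symm`, or
transpose) `|J| ≤ |I|`; so `β` is square, and `d = det β ∈ ℤ[ζ]` satisfies
`d · conj d = n^{|I|}`. By `even_val` (file Num) `v_p(n^{|I|}) = |I| v_p(n)` is even, so `|I|` is
even, and the number of moved rows is `q |I|`.
(Alternative to choosing representatives: any other proof is welcome.)
-/

namespace Pool.Agent.H12.ST

open Finset

variable {R C : Type} [Fintype R] [Fintype C] [DecidableEq R] [DecidableEq C]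
  {B : R → C → ℤ} {n f : ℤ}

theorem Sys.symm (h : Sys B n f) : Sys (fun c r => B r c) n f where
  npos := h.npos
  fnn := h.fnn
  rows := h.cols
  cols := h.rows

private lemma pow_inj_of_moved {X : Type} (σ : Equiv.Perm X) {q : ℕ} (hq : q.Prime)
    (hσ : σ ^ q = 1) {x : X} (hx : σ x ≠ x) {m m' : ℕ} (hm : m ≤ m') (hm' : m' < q)
    (h : (σ ^ m) x = (σ ^ m') x) : m = m' := by
  have h1 : (σ ^ (m' - m)) x = x := by
    have : m' = m + (m' - m) := by omega
    rw [this, pow_add, Equiv.Perm.mul_apply] at h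
    exact ((σ ^ m).injective h).symm
  have hper : Function.IsPeriodicPt σ q x := by
    rw [Function.IsPeriodicPt, Function.IsFixedPt, Equiv.Perm.iterate_eq_pow, hσ]
    rfl
  have hper' : Function.IsPeriodicPt σ (m' - m) x := by
    rw [Function.IsPeriodicPt, Function.IsFixedPt, Equiv.Perm.iterate_eq_pow, h1]
  have hd := hper.minimalPeriod_dvd
  have hd' := hper'.minimalPeriod_dvd
  rcases (Nat.dvd_prime hq).1 hd with h2 | h2
  · exact absurd (Function.minimalPeriod_eq_one_iff_isFixedPt.1 h2) hx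
  · rw [h2] at hd'
    have := Nat.eq_zero_of_dvd_of_lt hd' (by omega)
    omega

private lemma exists_reps {X : Type} [Fintype X] [DecidableEq X] (σ : Equiv.Perm X) {q : ℕ}
    (hq : q.Prime) (hσ : σ ^ q = 1) :
    ∃ (I : Type) (_ : Fintype I) (_ : DecidableEq I) (rep : I → X)
      (e : I × Fin q ≃ {x // σ x ≠ x}), ∀ y, (e y : X) = (σ ^ (y.2 : ℕ)) (rep y.1) := by
  classical
  let s : Setoid {x // σ x ≠ x} := (Equiv.Perm.SameCycle.setoid σ).comap Subtype.val
  let rep : Quotient s → X := fun i => (Quotient.out i : {x // σ x ≠ x})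
  have hrep : ∀ i, σ (rep i) ≠ rep i := fun i => (Quotient.out i).2
  have hmov : ∀ y : Quotient s × Fin q, σ ((σ ^ (y.2 : ℕ)) (rep y.1)) ≠
      (σ ^ (y.2 : ℕ)) (rep y.1) := by
    intro y hy
    apply hrep y.1
    apply (σ ^ (y.2 : ℕ)).injective
    rw [← hy, ← Equiv.Perm.mul_apply, ← Equiv.Perm.mul_apply, ← pow_succ, ← pow_succ']
  let g : Quotient s × Fin q → {x // σ x ≠ x} := fun y => ⟨(σ ^ (y.2 : ℕ)) (rep y.1), hmov y⟩
  have hg : Function.Bijective g := by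
    constructor
    · rintro ⟨i, m⟩ ⟨i', m'⟩ h
      have h1 : (σ ^ (m : ℕ)) (rep i) = (σ ^ (m' : ℕ)) (rep i') := congrArg Subtype.val h
      have h2 : σ.SameCycle (rep i) (rep i') := by
        have a1 : σ.SameCycle (rep i) ((σ ^ (m : ℕ)) (rep i)) := ⟨(m : ℕ), by simp⟩
        have a2 : σ.SameCycle (rep i') ((σ ^ (m' : ℕ)) (rep i')) := ⟨(m' : ℕ), by simp⟩
        rw [h1] at a1
        exact a1.trans a2.symm
      have h3 : i = i' := by
        have : (Quotient.out i) ≈ (Quotient.out i') := h2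
        exact Quotient.out_equiv_out.1 this
      subst h3
      have h4 : (m : ℕ) = m' := by
        rcases le_total (m : ℕ) m' with h5 | h5
        · exact pow_inj_of_moved σ hq hσ (hrep i) h5 m'.2 h1
        · exact (pow_inj_of_moved σ hq hσ (hrep i) h5 m.2 h1.symm).symm
      rw [Fin.ext h4]
    · rintro ⟨x, hx⟩
      have h1 : σ.SameCycle (rep (Quotient.mk s ⟨x, hx⟩)) x := by
        have : Quotient.out (Quotient.mk s ⟨x, hx⟩) ≈ ⟨x, hx⟩ := Quotient.mk_out _
        exact this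
      obtain ⟨k, hk⟩ := h1
      have hq0 : (0 : ℤ) < q := by exact_mod_cast hq.pos
      have h2 : σ ^ k = σ ^ (k % q) := by
        apply zpow_eq_zpow_emod
        rw [zpow_natCast, hσ]
      have h3 := Int.emod_nonneg k hq0.ne'
      have h4 := Int.emod_lt_of_pos k hq0
      obtain ⟨m, hm⟩ := Int.eq_ofNat_of_zero_le h3
      rw [hm] at h2 h4
      refine ⟨(Quotient.mk s ⟨x, hx⟩, ⟨m, by exact_mod_cast h4⟩), ?_⟩
      apply Subtype.ext
      change (σ ^ m) (rep (Quotient.mk s ⟨x, hx⟩)) = x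
      rw [h2, zpow_natCast] at hk
      exact hk
  exact ⟨Quotient s, Fintype.ofFinite _, Classical.decEq _, rep, Equiv.ofBijective g hg,
    fun y => rfl⟩

/-- The twisted rows. -/
private noncomputable def Ph (B : R → C → ℤ) (σ : Equiv.Perm R) (ζ : ℂ) (q : ℕ) (r : R) (c : C) :
    ℂ := ∑ m ∈ range q, ζ ^ m * (B ((σ ^ m) r) c : ℂ)

omit [Fintype R] [Fintype C] [DecidableEq R] [DecidableEq C] in
private lemma B_pow {B : R → C → ℤ} {σ : Equiv.Perm R} {γ : Equiv.Perm C}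
    (hB : ∀ r c, B (σ r) c = B r (γ c)) (m : ℕ) (r : R) (c : C) :
    B ((σ ^ m) r) c = B r ((γ ^ m) c) := by
  induction m generalizing c with
  | zero => simp
  | succ m ih =>
    rw [pow_succ', Equiv.Perm.mul_apply, hB, ih, pow_succ, Equiv.Perm.mul_apply]

omit [Fintype R] [Fintype C] [DecidableEq R] [DecidableEq C] in
private lemma Ph_fixed {σ : Equiv.Perm R} {γ : Equiv.Perm C}
    (hB : ∀ r c, B (σ r) c = B r (γ c)) {ζ : ℂ} {q : ℕ} (hs : ∑ m ∈ range q, ζ ^ m = 0) (r : R)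
    {c : C} (hc : γ c = c) : Ph B σ ζ q r c = 0 := by
  have h : ∀ m : ℕ, (γ ^ m) c = c := by
    intro m
    induction m with
    | zero => simp
    | succ m ih => rw [pow_succ, Equiv.Perm.mul_apply, hc, ih]
  unfold Ph
  simp_rw [B_pow hB, h]
  rw [← Finset.sum_mul, hs, zero_mul]

omit [Fintype R] [Fintype C] [DecidableEq R] [DecidableEq C] in
private lemma Ph_shift {σ : Equiv.Perm R} {γ : Equiv.Perm C}
    (hB : ∀ r c, B (σ r) c = B r (γ c)) {ζ : ℂ} {q : ℕ} (hζ : ζ ^ q = 1) (hγ : γ ^ q = 1) (r : R)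
    (c : C) : ζ * Ph B σ ζ q r (γ c) = Ph B σ ζ q r c := by
  unfold Ph
  simp_rw [B_pow hB]
  rw [Finset.mul_sum]
  have h1 : ∀ m ∈ range q, ζ * (ζ ^ m * (B r ((γ ^ m) (γ c)) : ℂ)) =
      ζ ^ (m + 1) * (B r ((γ ^ (m + 1)) c) : ℂ) := by
    intro m _
    rw [pow_succ γ, Equiv.Perm.mul_apply]
    ring
  rw [Finset.sum_congr rfl h1]
  have h2 := Finset.sum_range_succ' (fun m => ζ ^ m * (B r ((γ ^ m) c) : ℂ)) q
  rw [Finset.sum_range_succ, hζ, hγ, pow_zero, pow_zero] at h2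
  exact (add_right_cancel h2).symm

omit [Fintype R] [Fintype C] [DecidableEq R] [DecidableEq C] in
private lemma Ph_shift_pow {σ : Equiv.Perm R} {γ : Equiv.Perm C}
    (hB : ∀ r c, B (σ r) c = B r (γ c)) {ζ : ℂ} {q : ℕ} (hζ : ζ ^ q = 1) (hγ : γ ^ q = 1) (r : R)
    (c : C) (m : ℕ) : ζ ^ m * Ph B σ ζ q r ((γ ^ m) c) = Ph B σ ζ q r c := by
  induction m with
  | zero => simp
  | succ m ih =>
    rw [pow_succ, mul_assoc, pow_succ', Equiv.Perm.mul_apply, Ph_shift hB hζ hγ, ih]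

private lemma Ph_gram (h : Sys B n f) {σ : Equiv.Perm R} {ζ : ℂ} {q : ℕ}
    (hs : ∑ m ∈ range q, ζ ^ m = 0) (hn : ζ * (starRingEnd ℂ) ζ = 1)
    {I : Type} [DecidableEq I] {rep : I → R}
    (hr : ∀ i i' : I, ∀ m ∈ range q, ∀ m' ∈ range q,
      ((σ ^ m) (rep i) = (σ ^ m') (rep i') ↔ i = i' ∧ m = m')) (i i' : I) :
    ∑ c, Ph B σ ζ q (rep i) c * (starRingEnd ℂ) (Ph B σ ζ q (rep i') c) =
      if i = i' then (q : ℂ) * n else 0 := by
  have h1 : ∀ c, Ph B σ ζ q (rep i) c * (starRingEnd ℂ) (Ph B σ ζ q (rep i') c) =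
      ∑ m ∈ range q, ∑ m' ∈ range q, ζ ^ m * (starRingEnd ℂ) ζ ^ m' *
        ((B ((σ ^ m) (rep i)) c : ℂ) * (B ((σ ^ m') (rep i')) c : ℂ)) := by
    intro c
    unfold Ph
    rw [map_sum, Finset.sum_mul_sum]
    refine Finset.sum_congr rfl fun m _ => Finset.sum_congr rfl fun m' _ => ?_
    rw [map_mul, map_pow, map_intCast]
    ring
  simp_rw [h1]
  rw [Finset.sum_comm]
  have h2 : ∀ m ∈ range q, ∑ c, ∑ m' ∈ range q, ζ ^ m * (starRingEnd ℂ) ζ ^ m' *
        ((B ((σ ^ m) (rep i)) c : ℂ) * (B ((σ ^ m') (rep i')) c : ℂ)) =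
      ∑ m' ∈ range q, ζ ^ m * (starRingEnd ℂ) ζ ^ m' *
        ((if i = i' ∧ m = m' then (n : ℂ) else 0) + f) := by
    intro m hm
    rw [Finset.sum_comm]
    refine Finset.sum_congr rfl fun m' hm' => ?_
    rw [← Finset.mul_sum]
    congr 1
    have h3 := h.rows ((σ ^ m) (rep i)) ((σ ^ m') (rep i'))
    have h4 := congrArg (fun x : ℤ => (x : ℂ)) h3
    simp only [hr i i' m hm m' hm', Int.cast_sum, Int.cast_mul, Int.cast_add, Int.cast_ite,
      Int.cast_zero] at h4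
    exact h4
  rw [Finset.sum_congr rfl h2]
  simp_rw [mul_add, Finset.sum_add_distrib]
  have h5 : ∑ m ∈ range q, ∑ m' ∈ range q, ζ ^ m * (starRingEnd ℂ) ζ ^ m' * (f : ℂ) = 0 := by
    have : ∀ m ∈ range q, ∑ m' ∈ range q, ζ ^ m * (starRingEnd ℂ) ζ ^ m' * (f : ℂ) =
        ζ ^ m * ((∑ m' ∈ range q, (starRingEnd ℂ) ζ ^ m') * f) := by
      intro m _
      rw [Finset.sum_mul, Finset.mul_sum]
      refine Finset.sum_congr rfl fun m' _ => ?_
      ring
    rw [Finset.sum_congr rfl this, ← Finset.sum_mul, hs, zero_mul]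
  rw [h5, add_zero]
  by_cases hi : i = i'
  · rw [if_pos hi]
    have h6 : ∀ m ∈ range q, ∑ m' ∈ range q, ζ ^ m * (starRingEnd ℂ) ζ ^ m' *
        (if i = i' ∧ m = m' then (n : ℂ) else 0) = n := by
      intro m hm
      rw [Finset.sum_eq_single_of_mem m hm]
      · rw [if_pos ⟨hi, rfl⟩, ← mul_pow, hn, one_pow, one_mul]
      · intro m' _ hne
        rw [if_neg (fun hh => hne hh.2.symm), mul_zero]
    rw [Finset.sum_congr rfl h6, Finset.sum_const, Finset.card_range, nsmul_eq_mul]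
  · rw [if_neg hi]
    refine Finset.sum_eq_zero fun m _ => Finset.sum_eq_zero fun m' _ => ?_
    rw [if_neg (fun hh => hi hh.1), mul_zero]

private lemma beta_gram (h : Sys B n f) {σ : Equiv.Perm R} {γ : Equiv.Perm C}
    (hB : ∀ r c, B (σ r) c = B r (γ c)) {ζ : ℂ} {q : ℕ} (hq : q.Prime) (hζ : ζ ^ q = 1)
    (hγ : γ ^ q = 1)
    (hs : ∑ m ∈ range q, ζ ^ m = 0) (hn : ζ * (starRingEnd ℂ) ζ = 1)
    {I J : Type} [Fintype I] [Fintype J] [DecidableEq I] {rep : I → R} {rep' : J → C}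
    (e : I × Fin q ≃ {x // σ x ≠ x}) (he : ∀ y, (e y : R) = (σ ^ (y.2 : ℕ)) (rep y.1))
    (e' : J × Fin q ≃ {x // γ x ≠ x}) (he' : ∀ y, (e' y : C) = (γ ^ (y.2 : ℕ)) (rep' y.1)) :
    (Matrix.of fun (i : I) (j : J) => Ph B σ ζ q (rep i) (rep' j)) *
      (Matrix.of fun (i : I) (j : J) => Ph B σ ζ q (rep i) (rep' j)).conjTranspose =
      (n : ℂ) • (1 : Matrix I I ℂ) := by
  have hq0 : (q : ℂ) ≠ 0 := by exact_mod_cast hq.ne_zero
  have hr : ∀ i i' : I, ∀ m ∈ range q, ∀ m' ∈ range q,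
      ((σ ^ m) (rep i) = (σ ^ m') (rep i') ↔ i = i' ∧ m = m') := by
    intro i i' m hm m' hm'
    rw [Finset.mem_range] at hm hm'
    constructor
    · intro hh
      have h1 : e (i, ⟨m, hm⟩) = e (i', ⟨m', hm'⟩) := by
        apply Subtype.ext
        rw [he, he]
        exact hh
      have h2 := e.injective h1
      rw [Prod.mk.injEq, Fin.mk.injEq] at h2
      exact h2
    · rintro ⟨rfl, rfl⟩
      rfl
  ext i i'
  rw [Matrix.mul_apply, Matrix.smul_apply, Matrix.one_apply]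
  simp only [Matrix.of_apply, Matrix.conjTranspose_apply, smul_eq_mul]
  have h1 := Ph_gram h hs hn hr i i'
  rw [← Fintype.sum_subtype_add_sum_subtype (fun c => γ c ≠ c)] at h1
  have h2 : ∑ c : {c // ¬ (γ c ≠ c)}, Ph B σ ζ q (rep i) c *
      (starRingEnd ℂ) (Ph B σ ζ q (rep i') c) = 0 := by
    refine Finset.sum_eq_zero fun c _ => ?_
    rw [Ph_fixed hB hs (rep i) (not_not.1 c.2), zero_mul]
  rw [h2, add_zero, ← e'.sum_comp, Fintype.sum_prod_type] at h1
  have h3 : ∀ j : J, ∑ m : Fin q, Ph B σ ζ q (rep i) (e' (j, m)) *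
      (starRingEnd ℂ) (Ph B σ ζ q (rep i') (e' (j, m))) =
      q * (Ph B σ ζ q (rep i) (rep' j) * (starRingEnd ℂ) (Ph B σ ζ q (rep i') (rep' j))) := by
    intro j
    have h4 : ∀ m : Fin q, Ph B σ ζ q (rep i) (e' (j, m)) *
      (starRingEnd ℂ) (Ph B σ ζ q (rep i') (e' (j, m))) =
      Ph B σ ζ q (rep i) (rep' j) * (starRingEnd ℂ) (Ph B σ ζ q (rep i') (rep' j)) := by
      intro m
      rw [he']
      simp only
      rw [← Ph_shift_pow hB hζ hγ (rep i) (rep' j) m, ← Ph_shift_pow hB hζ hγ (rep i') (rep' j) m,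
        map_mul, map_pow]
      have h5 : ζ ^ (m : ℕ) * (starRingEnd ℂ) ζ ^ (m : ℕ) = 1 := by
        rw [← mul_pow, hn, one_pow]
      linear_combination (-(Ph B σ ζ q (rep i) ((γ ^ (m : ℕ)) (rep' j)) *
        (starRingEnd ℂ) (Ph B σ ζ q (rep i') ((γ ^ (m : ℕ)) (rep' j))))) * h5
    rw [Finset.sum_congr rfl fun m _ => h4 m, Finset.sum_const, Finset.card_univ,
      Fintype.card_fin, nsmul_eq_mul]
  rw [Finset.sum_congr rfl fun j _ => h3 j, ← Finset.mul_sum] at h1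
  have h6 : ∑ j, Ph B σ ζ q (rep i) (rep' j) * star (Ph B σ ζ q (rep i') (rep' j)) =
      if i = i' then (n : ℂ) else 0 := by
    apply mul_left_cancel₀ hq0
    rw [mul_ite, mul_zero]
    exact h1
  rw [h6, mul_ite, mul_one, mul_zero]

private lemma moved_le (h : Sys B n f) {σ : Equiv.Perm R} {γ : Equiv.Perm C}
    (hB : ∀ r c, B (σ r) c = B r (γ c)) {q : ℕ} (hq : q.Prime)
    (hγ : γ ^ q = 1)
    {I J : Type} [Fintype I] [Fintype J] [DecidableEq I] {rep : I → R} {rep' : J → C}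
    (e : I × Fin q ≃ {x // σ x ≠ x}) (he : ∀ y, (e y : R) = (σ ^ (y.2 : ℕ)) (rep y.1))
    (e' : J × Fin q ≃ {x // γ x ≠ x}) (he' : ∀ y, (e' y : C) = (γ ^ (y.2 : ℕ)) (rep' y.1)) :
    Fintype.card I ≤ Fintype.card J := by
  have hprim := Complex.isPrimitiveRoot_exp q hq.ne_zero
  set ζ := Complex.exp (2 * Real.pi * Complex.I / q) with hζdef
  have hζ : ζ ^ q = 1 := hprim.pow_eq_one
  have hs : ∑ m ∈ range q, ζ ^ m = 0 := hprim.geom_sum_eq_zero hq.one_lt
  have hn : ζ * (starRingEnd ℂ) ζ = 1 := by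
    rw [conj_eq_inv hq.pos hζ]
    exact mul_inv_cancel₀ (hprim.ne_zero hq.ne_zero)
  have hg := beta_gram h hB hq hζ hγ hs hn e he e' he'
  have hn0 : (n : ℂ) ≠ 0 := by exact_mod_cast h.npos.ne'
  set β := (Matrix.of fun (i : I) (j : J) => Ph B σ ζ q (rep i) (rep' j)) with hβ
  have h1 : β * ((n : ℂ)⁻¹ • β.conjTranspose) = 1 := by
    rw [Matrix.mul_smul, hg, smul_smul, inv_mul_cancel₀ hn0, one_smul]
  have h2 := Matrix.rank_mul_le_left β ((n : ℂ)⁻¹ • β.conjTranspose)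
  rw [h1, Matrix.rank_one] at h2
  exact h2.trans (Matrix.rank_le_card_width β)

theorem even_moved (h : Sys B n f) (ρ : Equiv.Perm R) (γ : Equiv.Perm C)
    (hB : ∀ r c, B (ρ r) (γ c) = B r c) {q : ℕ} (hq : q.Prime) (hq2 : 2 < q)
    (hρ : ρ ^ q = 1) (hγ : γ ^ q = 1) {p j : ℕ} (hp : p.Prime) (hj : q ∣ p ^ j + 1)
    (hn : Odd (padicValNat p n.toNat)) : Even (Fintype.card {r // ρ r ≠ r}) := by
  classical
  set σ : Equiv.Perm R := ρ⁻¹ with hσdef
  have hσ : σ ^ q = 1 := by rw [hσdef, inv_pow, hρ, inv_one]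
  have hB1 : ∀ r c, B (σ r) c = B r (γ c) := by
    intro r c
    have h1 := hB (σ r) c
    have h2 : ρ (σ r) = r := by
      rw [hσdef, ← Equiv.Perm.mul_apply, mul_inv_cancel, Equiv.Perm.one_apply]
    rw [h2] at h1
    exact h1.symm
  obtain ⟨I, _, _, rep, e, he⟩ := exists_reps σ hq hσ
  obtain ⟨J, _, _, rep', e', he'⟩ := exists_reps γ hq hγ
  have hIJ : Fintype.card I ≤ Fintype.card J := moved_le h hB1 hq hγ e he e' he'
  have hJI : Fintype.card J ≤ Fintype.card I := by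
    refine moved_le (B := fun c r => B r c) h.symm (σ := γ) (γ := σ) ?_ hq hσ e' he' e he
    intro c r
    exact (hB1 r c).symm
  have hcard : Fintype.card I = Fintype.card J := le_antisymm hIJ hJI
  have hprim := Complex.isPrimitiveRoot_exp q hq.ne_zero
  set ζ := Complex.exp (2 * Real.pi * Complex.I / q) with hζdef
  have hζ : ζ ^ q = 1 := hprim.pow_eq_one
  have hs : ∑ m ∈ range q, ζ ^ m = 0 := hprim.geom_sum_eq_zero hq.one_lt
  have hnn : ζ * (starRingEnd ℂ) ζ = 1 := by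
    rw [conj_eq_inv hq.pos hζ]
    exact mul_inv_cancel₀ (hprim.ne_zero hq.ne_zero)
  have hg := beta_gram h hB1 hq hζ hγ hs hnn e he e' he'
  set β := (Matrix.of fun (i : I) (j : J) => Ph B σ ζ q (rep i) (rep' j)) with hβ
  let t : I ≃ J := Fintype.equivOfCardEq hcard
  set M : Matrix I I ℂ := β.submatrix id t with hM
  have hMM : M * M.conjTranspose = (n : ℂ) • (1 : Matrix I I ℂ) := by
    rw [← hg, hM, Matrix.conjTranspose_submatrix, Matrix.submatrix_mul_equiv]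
    rfl
  have hdet : M.det * (starRingEnd ℂ) M.det = ((n.toNat ^ Fintype.card I : ℕ) : ℂ) := by
    have h1 := congrArg Matrix.det hMM
    rw [Matrix.det_mul, Matrix.det_conjTranspose, Matrix.det_smul, Matrix.det_one, mul_one] at h1
    have h2 : ((n.toNat : ℕ) : ℂ) = (n : ℂ) := by
      have := Int.toNat_of_nonneg h.npos.le
      exact_mod_cast congrArg (fun x : ℤ => (x : ℂ)) this
    rw [Nat.cast_pow, h2]
    exact h1
  have hmem : M.det ∈ Zz ζ := by
    rw [Matrix.det_apply]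
    refine Subring.sum_mem _ fun τ _ => ?_
    have h1 : ∏ i, M (τ i) i ∈ Zz ζ := by
      refine Subring.prod_mem _ fun i _ => ?_
      change Ph B σ ζ q (rep (τ i)) (rep' (t i)) ∈ Zz ζ
      refine Subring.sum_mem _ fun m _ => ?_
      exact (Zz ζ).mul_mem ((Zz ζ).pow_mem (self_mem_Zz ζ) m) (intCast_mem (Zz ζ) _)
    rw [Units.smul_def]
    exact (Zz ζ).zsmul_mem h1 _
  have hpos : 0 < n.toNat := by
    have := h.npos
    omega
  have hev := even_val hq2 hζ hp hj _ (pow_pos hpos _) _ hmem hdet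
  have : Fact p.Prime := ⟨hp⟩
  rw [padicValNat.pow] at hev
  have hI : Even (Fintype.card I) := by
    rcases Nat.even_mul.1 hev with h1 | h1
    · exact h1
    · exact absurd h1 (Nat.not_even_iff_odd.2 hn)
  have hc : Fintype.card {r // ρ r ≠ r} = Fintype.card I * q := by
    have h1 := Fintype.card_congr e
    rw [Fintype.card_prod, Fintype.card_fin] at h1
    rw [h1]
    refine Fintype.card_congr (Equiv.subtypeEquivRight fun r => not_congr ?_)
    have h2 : ρ (σ r) = r := by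
      rw [hσdef, ← Equiv.Perm.mul_apply, mul_inv_cancel, Equiv.Perm.one_apply]
    have h3 : σ (ρ r) = r := by
      rw [hσdef, ← Equiv.Perm.mul_apply, inv_mul_cancel, Equiv.Perm.one_apply]
    constructor
    · intro hh
      rw [hh] at h3
      exact h3
    · intro hh
      rw [hh] at h2
      exact h2
  rw [hc]
  exact hI.mul_right q

end Pool.Agent.H12.ST
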