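import Mathlib

set_option autoImplicit false

/-!
Elementary abelian normal subgroups.

PAPER PROOF of `exists_normal`: the last nontrivial term `A` of the derived series of the
nontrivial finite soluble group `G` is a nontrivial characteristic abelian subgroup
(`derivedSeries`, `derivedSeries_characteristic`/`derivedSeries_normal`, `Nat.find`). Take a prime
`r ∣ |A|` and `V = {a ∈ A : a^r = 1}`: a subgroup since `A` is commutative, normal in `G` since
`A` is and `(g a g⁻¹)^r = g a^r g⁻¹`, and nontrivial by Cauchy's theorem.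
PAPER PROOF of `exists_between`: let `C` be normal in `G`, `Z` normal in `G`, `C ≤ Z`, `C ≠ Z`,
`G` finite soluble. Apply `exists_normal`-style reasoning inside `Z/C ⊴ G/C`: the last nontrivial
term of the derived series of `(Z/C : Subgroup (G/C))` is characteristic in `Z/C`, hence normal in
`G/C`; take the elements of order dividing `r` in it; `A` = preimage in `G`.
-/

open scoped commutatorElement

namespace Pool.Agent.H12.ST

/-- Elementary abelian subgroups, normal in `G`, of a nontrivial normal subgroup `Z` of `G`. -/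
theorem exists_normal_le {G : Type} [Group G] [Finite G] [Group.IsSolvable G] (Z : Subgroup G)
    [Z.Normal] (hZ : Z ≠ ⊥) :
    ∃ r : ℕ, r.Prime ∧ ∃ V : Subgroup G, V.Normal ∧ V ≠ ⊥ ∧ V ≤ Z ∧
      (∀ a ∈ V, ∀ b ∈ V, a * b = b * a) ∧ ∀ a ∈ V, a ^ r = 1 := by
  classical
  have hex : ∃ n : ℕ, derivedSeries Z n = ⊥ := Group.IsSolvable.solvable
  have hn : derivedSeries Z (Nat.find hex) = ⊥ := Nat.find_spec hex
  have hpos : Nat.find hex ≠ 0 := by
    intro h0
    rw [h0, derivedSeries_zero] at hn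
    apply hZ
    rw [Subgroup.eq_bot_iff_forall]
    intro x hx
    have h1 : (⟨x, hx⟩ : Z) ∈ (⊥ : Subgroup Z) := by
      rw [← hn]
      exact Subgroup.mem_top _
    have h2 := Subgroup.mem_bot.1 h1
    exact congrArg Subtype.val h2
  obtain ⟨m, hm⟩ := Nat.exists_eq_succ_of_ne_zero hpos
  have hKne : derivedSeries Z m ≠ ⊥ := Nat.find_min hex (by omega)
  rw [hm, Nat.succ_eq_add_one, derivedSeries_succ] at hn
  have hKcomm : ∀ a ∈ derivedSeries Z m, ∀ b ∈ derivedSeries Z m, a * b = b * a := by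
    intro a ha b hb
    have h1 : ⁅a, b⁆ ∈ ⁅derivedSeries Z m, derivedSeries Z m⁆ :=
      Subgroup.commutator_mem_commutator ha hb
    rw [hn, Subgroup.mem_bot] at h1
    exact commutatorElement_eq_one_iff_mul_comm.1 h1
  set A : Subgroup G := (derivedSeries Z m).map Z.subtype with hA
  have hAn : A.Normal := inferInstance
  have hAcomm : ∀ a ∈ A, ∀ b ∈ A, a * b = b * a := by
    rintro _ ⟨a, ha, rfl⟩ _ ⟨b, hb, rfl⟩
    have h1 := congrArg Z.subtype (hKcomm a ha b hb)
    rwa [map_mul, map_mul] at h1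
  have hAZ : A ≤ Z := by
    rintro _ ⟨a, -, rfl⟩
    exact a.2
  have hAne : A ≠ ⊥ := by
    intro h1
    apply hKne
    rwa [hA, Subgroup.map_eq_bot_iff_of_injective _ Z.subtype_injective] at h1
  have hcard : Nat.card A ≠ 1 := by
    intro h1
    exact hAne (Subgroup.card_eq_one.1 h1)
  obtain ⟨r, hr, hrd⟩ := Nat.exists_prime_and_dvd hcard
  have : Fact r.Prime := ⟨hr⟩
  obtain ⟨a₀, ha₀⟩ := exists_prime_orderOf_dvd_card' (G := A) r hrd
  let V : Subgroup G :=
    { carrier := {a | a ∈ A ∧ a ^ r = 1}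
      mul_mem' := by
        rintro a b ⟨ha, ha'⟩ ⟨hb, hb'⟩
        refine ⟨A.mul_mem ha hb, ?_⟩
        have h1 : Commute a b := hAcomm a ha b hb
        rw [h1.mul_pow, ha', hb', one_mul]
      one_mem' := ⟨A.one_mem, one_pow r⟩
      inv_mem' := by
        rintro a ⟨ha, ha'⟩
        exact ⟨A.inv_mem ha, by rw [inv_pow, ha', inv_one]⟩ }
  refine ⟨r, hr, V, ⟨?_⟩, ?_, ?_, ?_, ?_⟩
  · rintro a ⟨ha, ha'⟩ g
    exact ⟨hAn.conj_mem a ha g, by rw [conj_pow, ha', mul_one, mul_inv_cancel]⟩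
  · intro h1
    have h2 : (a₀ : G) ∈ V := by
      refine ⟨a₀.2, ?_⟩
      have h3 : a₀ ^ r = 1 := by rw [← ha₀]; exact pow_orderOf_eq_one a₀
      have h4 := congrArg Subtype.val h3
      simpa using h4
    rw [h1, Subgroup.mem_bot] at h2
    have h3 : a₀ = 1 := Subtype.ext h2
    rw [h3, orderOf_one] at ha₀
    exact hr.one_lt.ne ha₀
  · exact fun a ha => hAZ ha.1
  · exact fun a ha b hb => hAcomm a ha.1 b hb.1
  · exact fun a ha => ha.2

theorem exists_normal (G : Type) [Group G] [Finite G] [Group.IsSolvable G] [Nontrivial G] :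
    ∃ r : ℕ, r.Prime ∧ ∃ V : Subgroup G, V.Normal ∧ V ≠ ⊥ ∧
      (∀ a ∈ V, ∀ b ∈ V, a * b = b * a) ∧ ∀ a ∈ V, a ^ r = 1 := by
  obtain ⟨r, hr, V, h1, h2, -, h3, h4⟩ := exists_normal_le (⊤ : Subgroup G) top_ne_bot
  exact ⟨r, hr, V, h1, h2, h3, h4⟩

theorem exists_between {G : Type} [Group G] [Finite G] [Group.IsSolvable G] (C Z : Subgroup G)
    [C.Normal] [Z.Normal] (hCZ : C ≤ Z) (hne : C ≠ Z) :
    ∃ r : ℕ, r.Prime ∧ ∃ A : Subgroup G, A.Normal ∧ C ≤ A ∧ C ≠ A ∧ A ≤ Z ∧
      (∀ a ∈ A, ∀ b ∈ A, a * b * a⁻¹ * b⁻¹ ∈ C) ∧ ∀ a ∈ A, a ^ r ∈ C := by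
  have hZn : (Z.map (QuotientGroup.mk' C)).Normal :=
    Subgroup.Normal.map inferInstance _ (QuotientGroup.mk'_surjective C)
  have hZne : Z.map (QuotientGroup.mk' C) ≠ ⊥ := by
    intro h1
    rw [Subgroup.map_eq_bot_iff, QuotientGroup.ker_mk'] at h1
    exact hne (le_antisymm hCZ h1)
  obtain ⟨r, hr, V, hVn, hVne, hVZ, hVc, hVr⟩ := exists_normal_le (Z.map (QuotientGroup.mk' C)) hZne
  refine ⟨r, hr, V.comap (QuotientGroup.mk' C), hVn.comap _, ?_, ?_, ?_, ?_, ?_⟩
  · intro a ha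
    show QuotientGroup.mk' C a ∈ V
    have h1 : QuotientGroup.mk' C a = 1 := by
      rw [← MonoidHom.mem_ker, QuotientGroup.ker_mk']
      exact ha
    rw [h1]
    exact V.one_mem
  · intro h1
    apply hVne
    rw [Subgroup.eq_bot_iff_forall]
    intro x hx
    obtain ⟨a, rfl⟩ := QuotientGroup.mk'_surjective C x
    have h2 : a ∈ V.comap (QuotientGroup.mk' C) := hx
    rw [← h1] at h2
    rw [← MonoidHom.mem_ker, QuotientGroup.ker_mk']
    exact h2
  · intro a ha
    obtain ⟨b, hb, hab⟩ := hVZ (show QuotientGroup.mk' C a ∈ V from ha)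
    have h1 : b⁻¹ * a ∈ C := by
      rw [← QuotientGroup.ker_mk' C, MonoidHom.mem_ker, map_mul, map_inv, hab, inv_mul_cancel]
    have h2 : a = b * (b⁻¹ * a) := by group
    rw [h2]
    exact Z.mul_mem hb (hCZ h1)
  · intro a ha b hb
    rw [← QuotientGroup.ker_mk' C, MonoidHom.mem_ker, map_mul, map_mul, map_mul, map_inv, map_inv,
      hVc _ ha _ hb]
    group
  · intro a ha
    rw [← QuotientGroup.ker_mk' C, MonoidHom.mem_ker, map_pow]
    exact hVr _ ha

end Pool.Agent.H12.ST
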