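import Pool.Agent.H12.ST.Quo
import Pool.Agent.H12.ST.Par
import Pool.Agent.H12.ST.Cnt
import Pool.Agent.H12.ST.Sol

set_option autoImplicit false

/-!
Mann's test for soluble transitive groups: induction over a chief series.
-/

namespace Pool.Agent.H12.ST

open Finset MulAction

/-- The statement proved by induction on the number `e` of rows. -/
def IndStat (p q e : ℕ) : Prop :=
  ∀ (R C : Type) [Fintype R] [Fintype C] [DecidableEq R] [DecidableEq C]
    (G : Type) [Group G] [Group.IsSolvable G] [MulAction G R] [MulAction G C]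
    [MulAction.IsPretransitive G R] [MulAction.IsPretransitive G C]
    (B : R → C → ℤ) (n f : ℤ) (_ : Sys B n f) (_ : ∀ (g : G) r c, B (g • r) (g • c) = B r c)
    (_ : Odd (padicValNat p n.toNat)) (_ : Fintype.card R = e) (_ : Odd e),
    Even (padicValNat q e)

lemma faithful_step {p q j : ℕ} (hp : p.Prime) (hq : q.Prime) (hq2 : 2 < q)
    (hj : q ∣ p ^ j + 1) {e : ℕ} (ih : ∀ e' < e, IndStat p q e')
    (R C : Type) [Fintype R] [Fintype C] [DecidableEq R] [DecidableEq C]
    (G : Type) [Group G] [Finite G] [Group.IsSolvable G] [MulAction G R] [MulAction G C]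
    [MulAction.IsPretransitive G R] [MulAction.IsPretransitive G C] [FaithfulSMul G R]
    (B : R → C → ℤ) (n f : ℤ) (h : Sys B n f) (hG : ∀ (g : G) r c, B (g • r) (g • c) = B r c)
    (hn : Odd (padicValNat p n.toNat)) (he : Fintype.card R = e) (hodd : Odd e) :
    Even (padicValNat q e) := by
  classical
  have : Fact q.Prime := ⟨hq⟩
  have hepos : 0 < e := hodd.pos
  rcases Nat.lt_or_ge 1 e with he1 | he1
  swap
  · have : e = 1 := by omega
    subst this; simp
  have hnt : Nontrivial R := by
    rw [← Fintype.one_lt_card_iff_nontrivial, he]; exact he1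
  obtain ⟨r0, r1, hr01⟩ := exists_pair_ne R
  have hGnt : Nontrivial G := by
    obtain ⟨g, hg⟩ := MulAction.exists_smul_eq G r0 r1
    refine ⟨⟨g, 1, ?_⟩⟩
    rintro rfl
    rw [one_smul] at hg
    exact hr01 hg
  obtain ⟨r, hr, V, hVn, hVb, hVc, hVr⟩ := exists_normal G
  have : Fact r.Prime := ⟨hr⟩
  have hVp : IsPGroup r V := by
    intro v
    exact ⟨1, by rw [pow_one]; exact Subtype.ext (hVr v v.2)⟩
  -- orbits
  set s := Nat.card {z // cls V z = cls V r0} with hs
  have horb : ∀ x : R, Nat.card (orbit V x) = s := by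
    intro x
    rw [← card_fib V x, hs]
    exact card_fib_const V x r0
  have hcard : Nat.card R = s * Nat.card (Orb G V R) := card_mul V r0
  rw [Nat.card_eq_fintype_card, he] at hcard
  obtain ⟨c, hc⟩ := hVp.card_orbit r0
  rw [horb r0] at hc
  have hs1 : 1 < s := by
    obtain ⟨v, hv, hv1⟩ : ∃ v : G, v ∈ V ∧ v ≠ 1 := by
      obtain ⟨⟨v, hv⟩, hv1⟩ := Subgroup.ne_bot_iff_exists_ne_one.1 hVb
      exact ⟨v, hv, fun h => hv1 (Subtype.ext h)⟩
    have hx : ∃ x : R, v • x ≠ x := by
      by_contra hcon
      push Not at hcon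
      apply hv1
      apply FaithfulSMul.eq_of_smul_eq_smul (α := R)
      intro x
      rw [hcon x, one_smul]
    obtain ⟨x, hx⟩ := hx
    rw [← horb x]
    rw [Finite.one_lt_card_iff_nontrivial]
    exact ⟨⟨⟨x, mem_orbit_self x⟩, ⟨v • x, ⟨⟨v, hv⟩, rfl⟩⟩, fun h => hx (congrArg Subtype.val h).symm⟩⟩
  have : Fintype (Orb G V R) := Fintype.ofFinite _
  have : Fintype (Orb G V C) := Fintype.ofFinite _
  set e' := Nat.card (Orb G V R) with he'
  have he'pos : 0 < e' := by
    rcases Nat.eq_zero_or_pos e' with h0 | h0
    · rw [h0, mul_zero] at hcard; omega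
    · exact h0
  have hlt : e' < e := by
    rw [hcard]; nlinarith
  have hodd' : Odd e' := by
    rw [hcard] at hodd
    exact (Nat.odd_mul.1 hodd).2
  have hsodd : Odd s := by
    rw [hcard] at hodd
    exact (Nat.odd_mul.1 hodd).1
  have h1 : Even (padicValNat q e') :=
    ih e' hlt (Orb G V R) (Orb G V C) G (quo V B) n _ (h.quot V hG r0)
      (fun g o c => quo_smul V hG g o c) hn (by rw [he', Nat.card_eq_fintype_card]) hodd'
  have hval : padicValNat q e = padicValNat q s + padicValNat q e' := by
    rw [hcard, padicValNat.mul (by omega) (by omega)]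
  rw [hval, hc]
  rcases eq_or_ne r q with rfl | hne
  · rw [padicValNat.prime_pow]
    refine Even.add ?_ h1
    refine even_exponent (V := V) (R := R) hq hq2 (fun v => Subtype.ext (hVr v v.2))
      (by rw [Nat.card_eq_fintype_card, he]; exact hodd) (fun x => by rw [horb x, hc]) ?_
    intro v hv
    have h2 := even_moved h (MulAction.toPerm (v : G)) (MulAction.toPerm (v : G))
      (fun r c => hG v r c) hq hq2 (by
        have : (MulAction.toPermHom G R) ((v : G) ^ r) = 1 := by rw [hVr v v.2, map_one]
        rwa [map_pow] at this) (by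
        have : (MulAction.toPermHom G C) ((v : G) ^ r) = 1 := by rw [hVr v v.2, map_one]
        rwa [map_pow] at this) hp hj hn
    rw [Nat.card_eq_fintype_card]
    exact h2
  · have h2 : padicValNat q (r ^ c) = 0 := by
      have : Fact r.Prime := ⟨hr⟩
      rw [padicValNat.pow, padicValNat_primes hne.symm, mul_zero]
    rw [h2, zero_add]; exact h1

theorem indStat {p q j : ℕ} (hp : p.Prime) (hq : q.Prime) (hq2 : 2 < q)
    (hj : q ∣ p ^ j + 1) (e : ℕ) : IndStat p q e := by
  induction e using Nat.strong_induction_on with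
  | _ e ih =>
    intro R C _ _ _ _ G _ _ _ _ _ _ B n f h hG hn he hodd
    let Φ : G →* Equiv.Perm R × Equiv.Perm C :=
      (MulAction.toPermHom G R).prod (MulAction.toPermHom G C)
    let G' := Φ.range
    let a1 : MulAction G' R :=
      MulAction.compHom R ((MonoidHom.fst (Equiv.Perm R) (Equiv.Perm C)).comp G'.subtype)
    let a2 : MulAction G' C :=
      MulAction.compHom C ((MonoidHom.snd (Equiv.Perm R) (Equiv.Perm C)).comp G'.subtype)
    have hsm1 : ∀ (g : G) (x : R), (Φ.rangeRestrict g) • x = g • x := fun g x => rfl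
    have hsm2 : ∀ (g : G) (x : C), (Φ.rangeRestrict g) • x = g • x := fun g x => rfl
    have hsur : Function.Surjective Φ.rangeRestrict := Φ.rangeRestrict_surjective
    have hfin : Finite G' := inferInstance
    have hsol : Group.IsSolvable G' := Group.isSolvable_of_surjective hsur
    have ht1 : MulAction.IsPretransitive G' R := ⟨fun x y => by
      obtain ⟨g, hg⟩ := MulAction.exists_smul_eq G x y
      exact ⟨Φ.rangeRestrict g, hg⟩⟩
    have ht2 : MulAction.IsPretransitive G' C := ⟨fun x y => by
      obtain ⟨g, hg⟩ := MulAction.exists_smul_eq G x y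
      exact ⟨Φ.rangeRestrict g, hg⟩⟩
    have hG' : ∀ (g : G') r c, B (g • r) (g • c) = B r c := by
      intro g r c
      obtain ⟨g, rfl⟩ := hsur g
      exact hG g r c
    have hfaith : FaithfulSMul G' R := ⟨by
      intro a b hab
      obtain ⟨a, rfl⟩ := hsur a
      obtain ⟨b, rfl⟩ := hsur b
      apply Subtype.ext
      refine Prod.ext ?_ ?_
      · ext x
        exact hab x
      · ext c
        change a • c = b • c
        refine h.swap.row_inj ?_
        intro r
        have h1 : B r (a • c) = B (a⁻¹ • r) c := by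
          have := hG a (a⁻¹ • r) c
          rwa [smul_inv_smul] at this
        have h2 : B r (b • c) = B (b⁻¹ • r) c := by
          have := hG b (b⁻¹ • r) c
          rwa [smul_inv_smul] at this
        have h3 : a⁻¹ • r = b⁻¹ • r := by
          have := hab (b⁻¹ • r)
          change a • b⁻¹ • r = b • b⁻¹ • r at this
          rw [smul_inv_smul] at this
          rw [inv_smul_eq_iff]; exact this.symm
        rw [h1, h2, h3]⟩
    exact faithful_step hp hq hq2 hj ih R C G' B n f h hG' hn he hodd

end Pool.Agent.H12.ST
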