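import Pool.Agent.H12.ST.Defs

set_option autoImplicit false

/-!
Linear algebra of `Sys`: equal numbers of rows and columns, of fixed rows and columns, of orbits.
-/

namespace Pool.Agent.H12.ST

open Finset

variable {R C : Type} [Fintype R] [Fintype C] [DecidableEq R] [DecidableEq C]
  {B : R → C → ℤ} {n f : ℤ}

theorem Sys.swap (h : Sys B n f) : Sys (fun c r => B r c) n f where
  npos := h.npos
  fnn := h.fnn
  rows := h.cols
  cols := h.rows

theorem Sys.card_le (h : Sys B n f) : Fintype.card R ≤ Fintype.card C := by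
  classical
  let L : (R → ℚ) →ₗ[ℚ] (C → ℚ) :=
    { toFun := fun x c => ∑ r, x r * (B r c : ℚ)
      map_add' := by intro x y; ext c; simp [add_mul, sum_add_distrib]
      map_smul' := by intro a x; ext c; simp [mul_sum, mul_assoc] }
  have hinj : Function.Injective L := by
    rw [← LinearMap.ker_eq_bot, LinearMap.ker_eq_bot']
    intro x hx
    have h1 : ∑ c, (L x c) ^ 2 = 0 := by simp [hx]
    have h2 : ∑ c, (L x c) ^ 2 = n * ∑ r, x r ^ 2 + f * (∑ r, x r) ^ 2 := by
      have : ∀ c, (L x c) ^ 2 = ∑ r, ∑ r', x r * x r' * ((B r c : ℚ) * B r' c) := by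
        intro c
        change (∑ r, x r * (B r c : ℚ)) ^ 2 = _
        rw [sq, sum_mul_sum]
        refine sum_congr rfl fun r _ => sum_congr rfl fun r' _ => by ring
      simp_rw [this]
      rw [sum_comm]
      have h3 : ∀ r, ∑ c, ∑ r', x r * x r' * ((B r c : ℚ) * B r' c) =
          ∑ r', x r * x r' * ((if r = r' then (n : ℚ) else 0) + f) := by
        intro r
        rw [sum_comm]
        refine sum_congr rfl fun r' _ => ?_
        rw [← mul_sum]
        congr 1
        have := h.rows r r'
        have h4 : ((∑ c, B r c * B r' c : ℤ) : ℚ) = (((if r = r' then n else 0) + f : ℤ) : ℚ) := by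
          rw [this]
        push_cast at h4
        rw [h4]
      simp_rw [h3, mul_add, sum_add_distrib]
      congr 1
      · rw [mul_sum]
        refine sum_congr rfl fun r _ => ?_
        simp only [mul_ite, mul_zero]
        rw [sum_ite_eq]
        simp; ring
      · rw [sq, sum_mul_sum, mul_sum]
        refine sum_congr rfl fun r _ => ?_
        rw [mul_sum]
        refine sum_congr rfl fun r' _ => by ring
    have hn : (0 : ℚ) < n := by exact_mod_cast h.npos
    have hf : (0 : ℚ) ≤ f := by exact_mod_cast h.fnn
    have h5 : ∑ r, x r ^ 2 = 0 := by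
      have h6 : 0 ≤ ∑ r, x r ^ 2 := sum_nonneg fun r _ => sq_nonneg _
      have h7 : 0 ≤ (f : ℚ) * (∑ r, x r) ^ 2 := mul_nonneg hf (sq_nonneg _)
      rw [h2] at h1
      have h8 : (n : ℚ) * ∑ r, x r ^ 2 ≤ 0 := by linarith
      have h9 : 0 ≤ (n : ℚ) * ∑ r, x r ^ 2 := mul_nonneg hn.le h6
      have h10 : (n : ℚ) * ∑ r, x r ^ 2 = 0 := le_antisymm h8 h9
      rcases mul_eq_zero.1 h10 with h11 | h11
      · exact absurd h11 hn.ne'
      · exact h11
    ext r
    have := (sum_eq_zero_iff_of_nonneg (fun r _ => sq_nonneg (x r))).1 h5 r (mem_univ r)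
    simpa using this
  have := LinearMap.finrank_le_finrank_of_injective hinj
  simpa using this

theorem Sys.card_eq (h : Sys B n f) : Fintype.card R = Fintype.card C :=
  le_antisymm h.card_le h.swap.card_le

theorem Sys.fix_eq (h : Sys B n f) (ρ : Equiv.Perm R) (γ : Equiv.Perm C)
    (hB : ∀ r c, B (ρ r) (γ c) = B r c) :
    Fintype.card {r // ρ r = r} = Fintype.card {c // γ c = c} := by
  have h1 : ∑ r, ∑ c, B (ρ r) c * B r c = n * (Fintype.card {r // ρ r = r} : ℤ) +
      f * Fintype.card R := by
    have : ∀ r, ∑ c, B (ρ r) c * B r c = (if ρ r = r then n else 0) + f := fun r => h.rows _ _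
    simp_rw [this, sum_add_distrib]
    rw [Fintype.card_subtype, ← sum_filter]
    simp [mul_comm]
  have h2 : ∑ r, ∑ c, B (ρ r) c * B r c = n * (Fintype.card {c // γ c = c} : ℤ) +
      f * Fintype.card C := by
    rw [sum_comm]
    have hc : ∀ r c, B (ρ r) c = B r (γ.symm c) := by
      intro r c
      have := hB r (γ.symm c)
      rwa [Equiv.apply_symm_apply] at this
    have : ∀ c, ∑ r, B (ρ r) c * B r c = (if γ.symm c = c then n else 0) + f := by
      intro c
      simp_rw [hc]
      exact h.cols _ _
    simp_rw [this, sum_add_distrib]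
    rw [Fintype.card_subtype, ← sum_filter]
    have h3 : (univ.filter fun c => γ.symm c = c) = univ.filter fun c => γ c = c := by
      ext c
      simp only [mem_filter, mem_univ, true_and]
      rw [Equiv.symm_apply_eq, eq_comm]
    rw [h3]
    simp [mul_comm]
  have h3 := h1.symm.trans h2
  rw [h.card_eq] at h3
  have h4 : n * (Fintype.card {r // ρ r = r} : ℤ) = n * (Fintype.card {c // γ c = c} : ℤ) := by
    linarith
  exact_mod_cast mul_left_cancel₀ h.npos.ne' h4

theorem Sys.row_inj (h : Sys B n f) {r r' : R} (hr : ∀ c, B r c = B r' c) : r = r' := by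
  by_contra hne
  have h1 := h.rows r r
  have h2 := h.rows r r'
  simp only [if_true, if_neg hne, zero_add] at h1 h2
  have h3 : ∑ c, B r c * B r c = ∑ c, B r c * B r' c :=
    sum_congr rfl fun c _ => by rw [hr c]
  have := h.npos
  omega

/-- Equal numbers of orbits on rows and on columns. -/
theorem Sys.orbits_eq (h : Sys B n f) {V : Type} [Group V] [Finite V] [MulAction V R]
    [MulAction V C] (hB : ∀ (v : V) r c, B (v • r) (v • c) = B r c) :
    Nat.card (MulAction.orbitRel.Quotient V R) = Nat.card (MulAction.orbitRel.Quotient V C) := by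
  classical
  have := Fintype.ofFinite V
  have h1 := MulAction.sum_card_fixedBy_eq_card_orbits_mul_card_group V R
  have h2 := MulAction.sum_card_fixedBy_eq_card_orbits_mul_card_group V C
  have h3 : ∀ v : V, Fintype.card (MulAction.fixedBy R v) = Fintype.card (MulAction.fixedBy C v) := by
    intro v
    have := h.fix_eq (MulAction.toPerm v) (MulAction.toPerm v) (fun r c => hB v r c)
    exact this
  simp_rw [h3] at h1
  rw [h1] at h2
  have hV : 0 < Fintype.card V := Fintype.card_pos
  have h4 := Nat.eq_of_mul_eq_mul_right hV h2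
  rw [← Nat.card_eq_fintype_card, ← Nat.card_eq_fintype_card] at h4
  exact h4

end Pool.Agent.H12.ST
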