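import Pool.Agent.H12.ST.Lin

set_option autoImplicit false

/-!
Quotient of a `Sys` by the orbits of a normal subgroup of a transitive group.
-/

namespace Pool.Agent.H12.ST

open Finset MulAction

section Orb

variable {G : Type} [Group G] (V : Subgroup G) [V.Normal] (X : Type) [MulAction G X]

/-- Orbits of the (normal) subgroup `V`. -/
abbrev Orb (G : Type) [Group G] (V : Subgroup G) (X : Type) [MulAction G X] : Type :=
  MulAction.orbitRel.Quotient V X

/-- The class of a point. -/
def cls {G : Type} [Group G] (V : Subgroup G) {X : Type} [MulAction G X] (x : X) : Orb G V X :=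
  Quotient.mk'' x

variable {X}

set_option linter.unusedSectionVars false

lemma mk_eq_iff {V : Subgroup G} {x y : X} : cls V x = cls V y ↔ ∃ v ∈ V, v • y = x := by
  unfold cls
  rw [Quotient.eq'', MulAction.orbitRel_apply, MulAction.mem_orbit_iff]
  constructor
  · rintro ⟨v, hv⟩; exact ⟨v, v.2, hv⟩
  · rintro ⟨v, hv, h⟩; exact ⟨⟨v, hv⟩, h⟩

lemma mk_smul_mem {V : Subgroup G} {v : G} (hv : v ∈ V) (x : X) : cls V (v • x) = cls V x :=
  mk_eq_iff.2 ⟨v, hv, rfl⟩

noncomputable instance orbAct : MulAction G (Orb G V X) where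
  smul g := Quotient.map' (fun x => g • x) (by
    intro x y h
    have h1 : cls V x = cls V y := Quotient.sound' h
    obtain ⟨v, hv, rfl⟩ := mk_eq_iff.1 h1
    have h2 : cls V (g • v • y) = cls V (g • y) := by
      refine mk_eq_iff.2 ⟨g * v * g⁻¹, Subgroup.Normal.conj_mem inferInstance v hv g, ?_⟩
      simp [mul_smul]
    exact Quotient.exact' h2)
  one_smul := by
    intro o
    induction o using Quotient.inductionOn' with
    | h x => exact congrArg _ (one_smul G x)
  mul_smul := by
    intro a b o
    induction o using Quotient.inductionOn' with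
    | h x => exact congrArg _ (mul_smul a b x)

lemma smul_mk (g : G) (x : X) : g • cls V x = cls V (g • x) := rfl

lemma mk_surj (o : Orb G V X) : ∃ x, cls V x = o := Quotient.exists_rep o

instance orbTrans [MulAction.IsPretransitive G X] : MulAction.IsPretransitive G (Orb G V X) where
  exists_smul_eq := by
    intro a b
    obtain ⟨x, rfl⟩ := mk_surj V a
    obtain ⟨y, rfl⟩ := mk_surj V b
    obtain ⟨g, rfl⟩ := MulAction.exists_smul_eq G x y
    exact ⟨g, rfl⟩

/-- fibre of `cls` and orbit -/
lemma card_fib (x : X) : Nat.card {y // cls V y = cls V x} = Nat.card (orbit V x) := by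
  refine Nat.card_congr (Equiv.subtypeEquivRight fun y => ?_)
  rw [mk_eq_iff, MulAction.mem_orbit_iff]
  constructor
  · rintro ⟨v, hv, h⟩; exact ⟨⟨v, hv⟩, h⟩
  · rintro ⟨v, h⟩; exact ⟨v, v.2, h⟩

lemma card_fib_smul (g : G) (x : X) :
    Nat.card {y // cls V y = cls V (g • x)} = Nat.card {y // cls V y = cls V x} := by
  refine (Nat.card_congr ((MulAction.toPerm g).subtypeEquiv fun y => ?_)).symm
  change cls V y = cls V x ↔ cls V (g • y) = cls V (g • x)
  rw [← smul_mk, ← smul_mk]
  exact (MulAction.injective g).eq_iff.symm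

lemma card_fib_const [MulAction.IsPretransitive G X] (x y : X) :
    Nat.card {z // cls V z = cls V x} = Nat.card {z // cls V z = cls V y} := by
  obtain ⟨g, rfl⟩ := MulAction.exists_smul_eq G x y
  exact (card_fib_smul V g x).symm

lemma card_mul [MulAction.IsPretransitive G X] [Finite X] (x : X) :
    Nat.card X = Nat.card {z // cls V z = cls V x} * Nat.card (Orb G V X) := by
  classical
  have := Fintype.ofFinite X
  have := Fintype.ofFinite (Orb G V X)
  have h1 : Nat.card X = ∑ o : Orb G V X, Nat.card {z // cls V z = o} := by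
    rw [Nat.card_congr (Equiv.sigmaFiberEquiv (cls V : X → Orb G V X)).symm]
    rw [Nat.card_eq_fintype_card, Fintype.card_sigma]
    exact sum_congr rfl fun o _ => (Nat.card_eq_fintype_card).symm
  have h2 : ∀ o : Orb G V X, Nat.card {z // cls V z = o} = Nat.card {z // cls V z = cls V x} := by
    intro o
    obtain ⟨y, rfl⟩ := mk_surj V o
    exact card_fib_const V y x
  rw [h1, sum_congr rfl fun o _ => h2 o, sum_const, card_univ, Nat.card_eq_fintype_card,
    smul_eq_mul, mul_comm, Nat.card_eq_fintype_card]

end Orb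

section Quo

variable {R C : Type} [Fintype R] [Fintype C] [DecidableEq R] [DecidableEq C]
  {B : R → C → ℤ} {n f : ℤ} {G : Type} [Group G] [Finite G] [MulAction G R] [MulAction G C]
  (V : Subgroup G) [V.Normal]

open Classical in
/-- The quotient matrix. -/
noncomputable def quo (B : R → C → ℤ) (o : Orb G V R) (c' : Orb G V C) : ℤ :=
  ∑ c with cls V c = c', B (Quotient.out o) c

lemma mk_out (o : Orb G V R) : cls V (Quotient.out o) = o := Quotient.out_eq _

open Classical in
lemma quo_row (hG : ∀ (g : G) r c, B (g • r) (g • c) = B r c) (r : R) (c' : Orb G V C) :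
    ∑ c with cls V c = c', B r c = quo V B (cls V r) c' := by
  unfold quo
  have h1 : cls V (Quotient.out (cls V r)) = cls V r := mk_out V _
  obtain ⟨v, hv, h2⟩ := mk_eq_iff.1 h1
  rw [← h2]
  refine sum_bij' (fun c _ => v • c) (fun c _ => v⁻¹ • c) ?_ ?_ ?_ ?_ ?_
  · intro c hc
    simp only [mem_filter, mem_univ, true_and] at hc ⊢
    rw [mk_smul_mem hv, hc]
  · intro c hc
    simp only [mem_filter, mem_univ, true_and] at hc ⊢
    rw [mk_smul_mem (V.inv_mem hv), hc]
  · intro c _; simp
  · intro c _; simp
  · intro c _; exact (hG v r c).symm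

lemma quo_smul (hG : ∀ (g : G) r c, B (g • r) (g • c) = B r c) (g : G) (o : Orb G V R)
    (c' : Orb G V C) : quo V B (g • o) (g • c') = quo V B o c' := by
  classical
  obtain ⟨r, rfl⟩ := mk_surj V o
  rw [smul_mk, ← quo_row V hG, ← quo_row V hG]
  refine (sum_bij' (fun c _ => g • c) (fun c _ => g⁻¹ • c) ?_ ?_ ?_ ?_ ?_).symm
  · intro c hc
    simp only [mem_filter, mem_univ, true_and] at hc ⊢
    rw [← smul_mk, hc]
  · intro c hc
    simp only [mem_filter, mem_univ, true_and] at hc ⊢
    rw [← smul_mk, hc, inv_smul_smul]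
  · intro c _; simp
  · intro c _; simp
  · intro c _; exact (hG g r c).symm

variable [MulAction.IsPretransitive G R] [MulAction.IsPretransitive G C]

/-- common size of the fibres -/
lemma fib_eq (h : Sys B n f) (hG : ∀ (g : G) r c, B (g • r) (g • c) = B r c) (r : R) (c : C) :
    Nat.card {z // cls V z = cls V r} = Nat.card {z // cls V z = cls V c} := by
  have h1 := card_mul V r
  have h2 := card_mul V c
  have h3 : Nat.card (Orb G V R) = Nat.card (Orb G V C) :=
    h.orbits_eq (V := V) (fun v r c => hG v r c)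
  have h4 : Nat.card R = Nat.card C := by
    rw [Nat.card_eq_fintype_card, Nat.card_eq_fintype_card]; exact h.card_eq
  rw [h1, h2, h3] at h4
  have : Nonempty (Orb G V C) := ⟨cls V c⟩
  have h5 : 0 < Nat.card (Orb G V C) := Nat.card_pos
  exact Nat.eq_of_mul_eq_mul_right h5 h4

open Classical in
lemma quo_col (h : Sys B n f) (hG : ∀ (g : G) r c, B (g • r) (g • c) = B r c)
    (c : C) (o : Orb G V R) : ∑ r with cls V r = o, B r c = quo V B o (cls V c) := by
  have hcol : ∀ c1 c2 : C, cls V c1 = cls V c2 →
      ∑ r with cls V r = o, B r c1 = ∑ r with cls V r = o, B r c2 := by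
    intro c1 c2 h12
    obtain ⟨v, hv, rfl⟩ := mk_eq_iff.1 h12
    refine (sum_bij' (fun r _ => v • r) (fun r _ => v⁻¹ • r) ?_ ?_ ?_ ?_ ?_).symm
    · intro r hr
      simp only [mem_filter, mem_univ, true_and] at hr ⊢
      rw [mk_smul_mem hv, hr]
    · intro r hr
      simp only [mem_filter, mem_univ, true_and] at hr ⊢
      rw [mk_smul_mem (V.inv_mem hv), hr]
    · intro r _; simp
    · intro r _; simp
    · intro r _; exact (hG v r c2).symm
  -- double count
  have h1 : ∑ r with cls V r = o, ∑ c1 with cls V c1 = cls V c, B r c1 =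
      (Nat.card {z // cls V z = o} : ℤ) * quo V B o (cls V c) := by
    have : ∀ r ∈ univ.filter (fun r => cls V r = o),
        ∑ c1 with cls V c1 = cls V c, B r c1 = quo V B o (cls V c) := by
      intro r hr
      simp only [mem_filter, mem_univ, true_and] at hr
      rw [quo_row V hG, hr]
    rw [sum_congr rfl this, sum_const, Nat.card_eq_fintype_card, Fintype.card_subtype, nsmul_eq_mul]
  have h2 : ∑ r with cls V r = o, ∑ c1 with cls V c1 = cls V c, B r c1 =
      (Nat.card {z // cls V z = cls V c} : ℤ) * ∑ r with cls V r = o, B r c := by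
    rw [sum_comm]
    have : ∀ c1 ∈ univ.filter (fun c1 => cls V c1 = cls V c),
        ∑ r with cls V r = o, B r c1 = ∑ r with cls V r = o, B r c := by
      intro c1 hc
      simp only [mem_filter, mem_univ, true_and] at hc
      exact hcol c1 c hc
    rw [sum_congr rfl this, sum_const, Nat.card_eq_fintype_card, Fintype.card_subtype, nsmul_eq_mul]
  obtain ⟨r0, rfl⟩ := mk_surj V o
  rw [h1, fib_eq V h hG r0 c] at h2
  have : Nonempty {z // cls V z = cls V c} := ⟨⟨c, rfl⟩⟩
  have h5 : (0 : ℤ) < Nat.card {z // cls V z = cls V c} := by exact_mod_cast Nat.card_pos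
  exact (mul_left_cancel₀ h5.ne' h2).symm

open Classical in
lemma quo_rows (h : Sys B n f) (hG : ∀ (g : G) r c, B (g • r) (g • c) = B r c)
    {s : ℕ} (hs : ∀ r : R, Nat.card {z // cls V z = cls V r} = s)
    (o o' : Orb G V R) [Fintype (Orb G V C)] :
    ∑ c', quo V B o c' * quo V B o' c' = (if o = o' then n else 0) + f * s := by
  obtain ⟨r, rfl⟩ := mk_surj V o
  have h1 : ∑ c', quo V B (cls V r) c' * quo V B o' c' = ∑ c, B r c * quo V B o' (cls V c) := by
    have : ∀ c', quo V B (cls V r) c' * quo V B o' c' =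
        ∑ c with cls V c = c', B r c * quo V B o' (cls V c) := by
      intro c'
      rw [← quo_row V hG, sum_mul]
      refine sum_congr rfl fun c hc => ?_
      simp only [mem_filter, mem_univ, true_and] at hc
      rw [hc]
    simp_rw [this]
    exact sum_fiberwise _ _ _
  rw [h1]
  have h2 : ∀ c, B r c * quo V B o' (cls V c) = ∑ r' with cls V r' = o', B r c * B r' c := by
    intro c
    rw [← quo_col V h hG, mul_sum]
  simp_rw [h2]
  rw [sum_comm]
  have h3 : ∀ r' ∈ univ.filter (fun r' => cls V r' = o'), ∑ c, B r c * B r' c =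
      (if r = r' then n else 0) + f := fun r' _ => h.rows r r'
  rw [sum_congr rfl h3, sum_add_distrib]
  congr 1
  · rw [sum_ite_eq]
    simp
  · rw [sum_const, nsmul_eq_mul, mul_comm]
    congr 1
    obtain ⟨r1, rfl⟩ := mk_surj V o'
    rw [← hs r1, Nat.card_eq_fintype_card, Fintype.card_subtype]

/-- The quotient system. -/
theorem Sys.quot (h : Sys B n f) (hG : ∀ (g : G) r c, B (g • r) (g • c) = B r c) (r0 : R)
    [Fintype (Orb G V R)] [Fintype (Orb G V C)] [DecidableEq (Orb G V R)]
    [DecidableEq (Orb G V C)] :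
    Sys (quo V B) n (f * (Nat.card {z // cls V z = cls V r0} : ℤ)) where
  npos := h.npos
  fnn := mul_nonneg h.fnn (by positivity)
  rows := by
    intro o o'
    have := quo_rows V h hG (fun r => card_fib_const V r r0) o o'
    rw [this]
    congr
  cols := by
    intro c c'
    have hsw := h.swap
    have hGs : ∀ (g : G) c r, (fun c r => B r c) (g • c) (g • r) = (fun c r => B r c) c r :=
      fun g c r => hG g r c
    obtain ⟨c0, rfl⟩ := mk_surj V c
    have := quo_rows V hsw hGs (s := Nat.card {z // cls V z = cls V r0})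
      (fun c => (fib_eq V h hG r0 c).symm) (cls V c0) c'
    have h2 : ∀ (o : Orb G V R) (c : Orb G V C), quo V (fun c r => B r c) c o = quo V B o c := by
      intro o c
      classical
      obtain ⟨c1, rfl⟩ := mk_surj V c
      rw [← quo_col V h hG, ← quo_row V hGs]
    simp_rw [h2] at this
    rw [this]
    congr

end Quo

end Pool.Agent.H12.ST
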